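import Pool.Agent.Q28.HJ.Defs

/-!
# Joins, suspensions and pencils of hypersurfaces
-/

open CategoryTheory MonoidalCategory

universe v u w

namespace Pool.Agent.Q28.HJ

section Gen

variable {𝓜 : Type u} [Category.{v} 𝓜]

lemma zero_of_retract [Preadditive 𝓜] {P M N : 𝓜} (R : Retract M N)
    (h : ∀ g : P ⟶ N, g = 0) (f : P ⟶ M) : f = 0 := by
  have : f = (f ≫ R.i) ≫ R.r := by rw [Category.assoc, R.retract, Category.comp_id]
  rw [this, h (f ≫ R.i), Limits.zero_comp]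

variable [MonoidalCategory 𝓜]

/-- `L^(s+t) ≅ L^s ⊗ L^t` -/
def powAdd (L : 𝓜) (s : ℕ) : ∀ t : ℕ, pow L (s + t) ≅ pow L s ⊗ pow L t
  | 0 => (ρ_ _).symm
  | t + 1 => (tensorRight L).mapIso (powAdd L s t) ≪≫ α_ _ _ _

def retRight {M N : 𝓜} (R : Retract M N) (P : 𝓜) : Retract (M ⊗ P) (N ⊗ P) :=
  R.map (tensorRight P)

def retLeft {M N : 𝓜} (R : Retract M N) (P : 𝓜) : Retract (P ⊗ M) (P ⊗ N) :=
  R.map (tensorLeft P)

def retIso {M N : 𝓜} (e : M ≅ N) : Retract M N := ⟨e.hom, e.inv, e.hom_inv_id⟩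

lemma faithful_pow {L : 𝓜} (hL : ∀ {M N : 𝓜} (f g : M ⟶ N), f ▷ L = g ▷ L → f = g) (k : ℕ) :
    ∀ {M N : 𝓜} (f g : M ⟶ N), f ▷ pow L k = g ▷ pow L k → f = g := by
  induction k with
  | zero =>
    intro M N f g h
    have h2 : f ▷ 𝟙_ 𝓜 = g ▷ 𝟙_ 𝓜 := h
    exact (whiskerRight_iff f g).1 h2
  | succ k ih =>
    intro M N f g h
    have h2 : f ▷ (pow L k ⊗ L) = g ▷ (pow L k ⊗ L) := h
    rw [whiskerRight_tensor, whiskerRight_tensor] at h2
    have h3 := (cancel_mono _).1 ((cancel_epi _).1 h2)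
    exact ih f g (hL _ _ h3)

/-- rearrangement -/
def shuffle [BraidedCategory 𝓜] (M A N B : 𝓜) : (M ⊗ A) ⊗ (N ⊗ B) ≅ (M ⊗ N) ⊗ (A ⊗ B) :=
  α_ M A (N ⊗ B) ≪≫ (tensorLeft M).mapIso ((α_ A N B).symm ≪≫
    (tensorRight B).mapIso (β_ A N) ≪≫ α_ N A B) ≪≫ (α_ M N (A ⊗ B)).symm

variable [Preadditive 𝓜] [MonoidalPreadditive 𝓜]

/-- vanishing of `Hom(L^(i+k), M ⊗ L^k)` gives vanishing of `Hom(L^i, M)` -/
lemma untwist {L : 𝓜} (hL : ∀ {M N : 𝓜} (f g : M ⟶ N), f ▷ L = g ▷ L → f = g) (i k : ℕ)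
    (M : 𝓜) (h : ∀ g : pow L (i + k) ⟶ M ⊗ pow L k, g = 0) (f : pow L i ⟶ M) : f = 0 := by
  apply faithful_pow hL k
  have h1 := h ((powAdd L i k).hom ≫ f ▷ pow L k)
  have h2 : f ▷ pow L k = 0 := by
    rw [← cancel_epi (powAdd L i k).hom, h1, Limits.comp_zero]
  rw [h2, MonoidalPreadditive.zero_whiskerRight]

end Gen

variable {𝓜 : Type u} [Category.{v} 𝓜] [Preadditive 𝓜] [MonoidalCategory 𝓜]
  {T : HypData.{v, u, w} 𝓜}

/-- iterated suspensions -/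
lemma susps (hT : T.Facts) {X W : T.Hyp} (hX : T.Smooth X)
    (h : Relation.ReflTransGen T.Susp X W) : T.Smooth W ∧ T.deg W = T.deg X ∧
      ∃ k, T.dim W = T.dim X + 2 * k ∧ Nonempty (Retract (T.prim X ⊗ pow T.L k) (T.prim W)) := by
  induction h with
  | refl => exact ⟨hX, rfl, 0, rfl, ⟨retIso (ρ_ _)⟩⟩
  | tail _ h2 ih =>
    obtain ⟨hs, hd, k, hk, ⟨R⟩⟩ := ih
    obtain ⟨hs', hd', hk', ⟨R'⟩⟩ := hT.susp_prop _ _ h2
    refine ⟨hs', hd'.trans hd, k + 1, by omega, ⟨?_⟩⟩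
    exact ((retIso (α_ _ _ _).symm).trans (retRight R T.L)).trans R'

/-- every smooth hypersurface of degree at least two has iterated suspensions -/
lemma exists_susps (hT : T.Facts) {X : T.Hyp} (hX : T.Smooth X) (hd : 2 ≤ T.deg X) (k : ℕ) :
    ∃ W, Relation.ReflTransGen T.Susp X W ∧ T.dim W = T.dim X + 2 * k := by
  induction k with
  | zero => exact ⟨X, .refl, rfl⟩
  | succ k ih =>
    obtain ⟨W, h, hk⟩ := ih
    obtain ⟨hs, hd', -⟩ := susps hT hX h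
    obtain ⟨W', h'⟩ := hT.susp W hs (hd' ▸ hd)
    have := (hT.susp_prop _ _ h').2.2.1
    exact ⟨W', h.tail h', by omega⟩

/-- the middle case for all hypersurfaces gives all cases -/
lemma of_middle (hT : T.Facts)
    (h : ∀ X : T.Hyp, T.Smooth X → ∀ i, 2 * i + 1 = T.dim X → T.Hartshorne X i) (m : ℕ) :
    ∀ X : T.Hyp, T.dim X = m → ∀ i, 2 * i + 2 ≤ m → T.Hartshorne X i := by
  induction m with
  | zero => intro X _ i hi; omega
  | succ m ih =>
    intro X hX i hi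
    obtain _ | i := i
    · exact hT.fund X (by omega)
    intro z
    obtain ⟨P, hP⟩ := hT.pencil X (by omega)
    -- restrictions to the smooth members
    have hres : ∀ s ∈ P, T.Smooth (T.sec s) → ∃ c : ℚ,
        T.res s (i + 1) z = c • T.h (T.sec s) (i + 1) := by
      intro s _ hs
      have hd := hT.sec_dim s
      by_cases h2 : 2 * (i + 1) + 2 ≤ m
      · exact ih (T.sec s) (by omega) (i + 1) h2 _
      · exact h (T.sec s) hs (i + 1) (by omega) _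
    have hc : ∃ c : ℚ, ∀ s ∈ P, T.Smooth (T.sec s) →
        T.res s (i + 1) z = c • T.h (T.sec s) (i + 1) := by
      by_cases hex : ∃ s ∈ P, T.Smooth (T.sec s)
      · obtain ⟨s₀, h₀, hs₀⟩ := hex
        obtain ⟨c, hc⟩ := hres s₀ h₀ hs₀
        refine ⟨c, fun s hs hss => ?_⟩
        obtain ⟨c', hc'⟩ := hres s hs hss
        have e1 := hT.push_res s₀ (i + 1) z
        have e2 := hT.push_res s (i + 1) z
        rw [hc, map_smul, hT.push_h] at e1
        rw [hc', map_smul, hT.push_h] at e2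
        have e3 : (c' - c) • T.h X (i + 1 + 1) = 0 := by rw [sub_smul, e2, e1, sub_self]
        rcases smul_eq_zero.1 e3 with e4 | e4
        · rw [hc', sub_eq_zero.1 e4]
        · exact absurd e4 (hT.h_ne X _ (by omega))
      · exact ⟨0, fun s hs hss => absurd ⟨s, hs, hss⟩ hex⟩
    obtain ⟨c, hc⟩ := hc
    have hz := hP i (z - c • T.h X (i + 1)) (fun s hs hss => by
      rw [map_sub, map_smul, hT.res_h, hc s hs hss, sub_self])
    have hz2 : z - c • T.h X (i + 1) ∈ Submodule.span ℚ {T.h X (i + 1)} := by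
      refine (Submodule.span_le.2 ?_) hz
      rintro g ⟨s, -, w, rfl⟩
      have hd := hT.sec_dim s
      obtain ⟨c', rfl⟩ := ih (T.sec s) (by omega) i (by omega) w
      rw [map_smul, hT.push_h]
      exact Submodule.smul_mem _ _ (Submodule.mem_span_singleton_self _)
    obtain ⟨c', hc'⟩ := Submodule.mem_span_singleton.1 hz2
    exact ⟨c + c', by rw [add_smul, hc']; abel⟩

/-- Hartshorne's conjecture from the middle cases -/
lemma all_of_middle (hT : T.Facts)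
    (h : ∀ X : T.Hyp, T.Smooth X → ∀ i, 2 * i + 1 = T.dim X → T.Hartshorne X i) (X : T.Hyp)
    (hX : T.Smooth X) (i : ℕ) (hi : 2 * i < T.dim X) : T.Hartshorne X i := by
  by_cases h2 : 2 * i + 2 ≤ T.dim X
  · exact of_middle hT h _ X rfl i h2
  · exact h X hX i (by omega)

variable [BraidedCategory 𝓜] [MonoidalPreadditive 𝓜]

/-- products of hypersurfaces are dominated by hypersurfaces -/
lemma prod_retract (hT : T.Facts) {N : ℕ} {M : 𝓜} (h : T.IsProd N M) :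
    ∃ D : ℕ, 0 < D ∧ ∀ E : ℕ, 0 < E → ∃ (W : T.Hyp) (s : ℕ), T.Smooth W ∧ T.deg W = D * E ∧
      T.dim W = N + 2 * s ∧ Nonempty (Retract (M ⊗ pow T.L s) (T.prim W)) := by
  induction h with
  | one X hX =>
    refine ⟨T.deg X, hT.deg_pos X, fun E hE => ?_⟩
    obtain ⟨X', h1, h2, h3, ⟨R⟩⟩ := hT.cover X E hX hE
    exact ⟨X', 0, h1, h2, by omega, ⟨(retIso (ρ_ _)).trans R⟩⟩
  | @tensor a b M N _ _ ih₁ ih₂ =>
    obtain ⟨D₁, hD₁, H₁⟩ := ih₁
    obtain ⟨D₂, hD₂, H₂⟩ := ih₂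
    refine ⟨D₁ * D₂, Nat.mul_pos hD₁ hD₂, fun E hE => ?_⟩
    obtain ⟨W₁, s, a1, a2, a3, ⟨R₁⟩⟩ := H₁ (D₂ * E) (Nat.mul_pos hD₂ hE)
    obtain ⟨W₂, t, b1, b2, b3, ⟨R₂⟩⟩ := H₂ (D₁ * E) (Nat.mul_pos hD₁ hE)
    obtain ⟨W, c1, c2, c3, ⟨R⟩⟩ := hT.join W₁ W₂ a1 b1 (by rw [a2, b2]; ring)
    refine ⟨W, s + t + 1, c1, by rw [c2, a2]; ring, by omega, ⟨?_⟩⟩
    have e₁ : (M ⊗ N) ⊗ pow T.L (s + t + 1) ≅ ((M ⊗ N) ⊗ pow T.L (s + t)) ⊗ T.L :=
      (α_ _ _ _).symm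
    have e₂ : (M ⊗ N) ⊗ pow T.L (s + t) ≅ (M ⊗ pow T.L s) ⊗ (N ⊗ pow T.L t) :=
      (tensorLeft (M ⊗ N)).mapIso (powAdd T.L s t) ≪≫ (shuffle M _ N _).symm
    have R₃ : Retract ((M ⊗ pow T.L s) ⊗ (N ⊗ pow T.L t)) (T.prim W₁ ⊗ T.prim W₂) :=
      (retRight R₁ _).trans (retLeft R₂ _)
    exact ((retIso e₁).trans (retRight ((retIso e₂).trans R₃) T.L)).trans R

/-- vanishing for products -/
lemma prod_of_all (hT : T.Facts)
    (h : ∀ X : T.Hyp, T.Smooth X → ∀ i, 2 * i < T.dim X → T.Hartshorne X i) {N : ℕ} {M : 𝓜}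
    (hM : T.IsProd N M) (i : ℕ) (hi : 2 * i < N) (f : pow T.L i ⟶ M) : f = 0 := by
  obtain ⟨D, -, H⟩ := prod_retract hT hM
  obtain ⟨W, s, h1, -, h3, ⟨R⟩⟩ := H 1 one_pos
  refine untwist hT.faithful i s M (zero_of_retract R ?_) f
  exact (hT.link W (i + s) h1 (by omega)).1 (h W h1 (i + s) (by omega))

/-- the middle cases from almost diagonal hypersurfaces -/
lemma middle_of_cofinal (hT : T.Facts) (S : Set (ℕ × ℕ)) (hS : Cofinal S) (ω : ℕ → ℕ)
    (hω : Filter.Tendsto ω Filter.atTop Filter.atTop)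
    (h : ∀ X W : T.Hyp, T.Smooth X → Relation.ReflTransGen T.Susp X W →
      (T.dim W, T.deg W) ∈ S → T.dim X ≤ ω (T.dim W) →
        ∀ i, 2 * i + 1 = T.dim W → T.Hartshorne W i) (X : T.Hyp) (hX : T.Smooth X) (i : ℕ)
    (hi : 2 * i + 1 = T.dim X) : T.Hartshorne X i := by
  obtain ⟨N₀, hN₀⟩ := Filter.eventually_atTop.1 (hω.eventually_ge_atTop (T.dim X))
  have hpos := hT.deg_pos X
  obtain ⟨⟨n, d⟩, hp, hodd, hn, hdvd, hd⟩ := hS (max N₀ (T.dim X)) (2 * T.deg X) (by omega)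
  simp only at hodd hn hdvd hd
  obtain ⟨e, he⟩ := hdvd
  have he0 : 0 < 2 * e := by
    rcases Nat.eq_zero_or_pos e with h0 | h0
    · rw [h0] at he; omega
    · omega
  obtain ⟨X', a1, a2, a3, ⟨R⟩⟩ := hT.cover X (2 * e) hX he0
  have hd2 : T.deg X' = d := by rw [a2, he]; ring
  have hd3 : 2 ≤ T.deg X' := by
    rw [a2]
    calc 2 ≤ 1 * (2 * e) := by omega
      _ ≤ _ := Nat.mul_le_mul_right _ hpos
  obtain ⟨k, hk⟩ : ∃ k, n = T.dim X + 2 * k := by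
    obtain ⟨l, hl⟩ := hodd
    have : T.dim X ≤ n := le_trans (le_max_right _ _) hn
    exact ⟨l - i, by omega⟩
  obtain ⟨W, b1, b2⟩ := exists_susps hT a1 hd3 k
  obtain ⟨c1, c2, k', c3, ⟨R'⟩⟩ := susps hT a1 b1
  obtain rfl : k' = k := by omega
  have hW : T.Hartshorne W (i + k') := by
    refine h X' W a1 b1 ?_ ?_ (i + k') (by omega)
    · rw [show T.dim W = n by omega, show T.deg W = d by rw [c2, hd2]]
      exact hp
    · rw [show T.dim W = n by omega, a3]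
      exact hN₀ n (le_trans (le_max_left _ _) hn)
  rw [hT.link X i hX (by omega)]
  refine zero_of_retract R (untwist hT.faithful i k' _ (zero_of_retract R' ?_))
  exact (hT.link W (i + k') c1 (by omega)).1 hW

/-- main theorem -/
theorem final (hT : T.Facts) (S : Set (ℕ × ℕ)) (hS : Cofinal S) (ω : ℕ → ℕ)
    (hω : Filter.Tendsto ω Filter.atTop Filter.atTop) :
    [∀ X W : T.Hyp, T.Smooth X → Relation.ReflTransGen T.Susp X W →
        (T.dim W, T.deg W) ∈ S → T.dim X ≤ ω (T.dim W) →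
          ∀ i, 2 * i + 1 = T.dim W → T.Hartshorne W i,
      ∀ X : T.Hyp, T.Smooth X → ∀ i, 2 * i < T.dim X → T.Hartshorne X i,
      ∀ (N : ℕ) (M : 𝓜), T.IsProd N M → ∀ i, 2 * i < N →
        ∀ f : pow T.L i ⟶ M, f = 0].TFAE := by
  tfae_have 1 → 2 := fun h => all_of_middle hT (middle_of_cofinal hT S hS ω hω h)
  tfae_have 2 → 3 := fun h N M hM i hi f => prod_of_all hT h hM i hi f
  tfae_have 3 → 1 := fun h X W hX hW _ _ i hi => by
    obtain ⟨c1, -, -⟩ := susps hT hX hW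
    exact (hT.link W i c1 (by omega)).2 (h _ _ (.one W c1) i (by omega))
  tfae_finish

end Pool.Agent.Q28.HJ
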