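import Pool.Agent.Q28.HJ.PDefs
import Pool.Agent.Q28.HJ.Main

/-!
# The period conjecture for products of hypersurfaces
-/

open CategoryTheory MonoidalCategory Limits

universe v u w

namespace Pool.Agent.Q28.HJ

namespace PeriodData

variable {𝓜 : Type u} [Category.{v} 𝓜] [Preadditive 𝓜] [MonoidalCategory 𝓜]
  [Limits.HasBinaryBiproducts 𝓜] {T : PeriodData.{v, u, w} 𝓜}

lemma pc_below (hT : T.Facts) {M N : 𝓜} (h : Below T.L M N) (hM : T.PC M) : T.PC N := by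
  have h1 := hT.fibre M N h
  have h2 := hT.le N
  unfold PC at *
  omega

noncomputable def retBiprod {A A' B B' : 𝓜} (R : Retract A A') (Q : Retract B B') :
    Retract (A ⊞ B) (A' ⊞ B') where
  i := biprod.map R.i Q.i
  r := biprod.map R.r Q.r
  retract := by ext <;> simp

/-- covers of a list of hypersurfaces, of one degree -/
lemma cover_list (hT : T.Facts) (l : List T.Hyp) (hl : ∀ X ∈ l, T.Smooth X) :
    ∃ D : ℕ, 0 < D ∧ ∀ E : ℕ, 0 < E → ∃ l' : List T.Hyp, (∀ X ∈ l', T.Smooth X ∧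
      T.deg X = D * E) ∧ l'.map T.dim = l.map T.dim ∧
        Nonempty (Retract (T.total l) (T.total l')) := by
  induction l with
  | nil => exact ⟨1, one_pos, fun E _ => ⟨[], by simp, rfl, ⟨retIso (Iso.refl _)⟩⟩⟩
  | cons X l ih =>
    obtain ⟨D, hD, H⟩ := ih (fun Y hY => hl Y (List.mem_cons_of_mem _ hY))
    have hX := hT.deg_pos X
    refine ⟨T.deg X * D, Nat.mul_pos hX hD, fun E hE => ?_⟩
    obtain ⟨l', h1, h2, ⟨R⟩⟩ := H (T.deg X * E) (Nat.mul_pos hX hE)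
    obtain ⟨X', a1, a2, a3, ⟨Q⟩⟩ := hT.cover X (D * E) (hl X List.mem_cons_self)
      (Nat.mul_pos hD hE)
    refine ⟨X' :: l', ?_, by simp [h2, a3], ⟨retBiprod Q R⟩⟩
    intro Y hY
    rcases List.mem_cons.1 hY with rfl | hY
    · exact ⟨a1, by rw [a2]; ring⟩
    · exact ⟨(h1 Y hY).1, by rw [(h1 Y hY).2]; ring⟩

/-- the tensor product of a list of primitive motives and of a curve -/
def tprod (T : PeriodData.{v, u, w} 𝓜) (C : T.Hyp) : List T.Hyp → 𝓜
  | [] => T.prim C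
  | X :: l => T.prim X ⊗ tprod T C l

/-- the dimension of the join -/
def jdim (l : List ℕ) : ℕ := (l.map (· + 2)).sum + 1

variable [BraidedCategory 𝓜]

lemma join_list (hT : T.Facts) {d : ℕ} {C : T.Hyp} (hC : T.Smooth C ∧ T.dim C = 1 ∧ T.deg C = d)
    (l : List T.Hyp) (hl : ∀ X ∈ l, T.Smooth X ∧ T.deg X = d) : ∃ (J : T.Hyp) (s : ℕ),
      T.Smooth J ∧ T.deg J = d ∧ T.dim J = jdim (l.map T.dim) ∧
        Nonempty (Retract (tprod T C l ⊗ pow T.L s) (T.prim J)) := by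
  induction l with
  | nil => exact ⟨C, 0, hC.1, hC.2.2, by simp [jdim, hC.2.1], ⟨retIso (ρ_ _)⟩⟩
  | cons X l ih =>
    obtain ⟨J, s, a1, a2, a3, ⟨R⟩⟩ := ih (fun Y hY => hl Y (List.mem_cons_of_mem _ hY))
    obtain ⟨b1, b2⟩ := hl X List.mem_cons_self
    obtain ⟨W, c1, c2, c3, ⟨Q⟩⟩ := hT.join X J b1 a1 (b2.trans a2.symm)
    refine ⟨W, s + 1, c1, c2.trans b2, ?_, ⟨?_⟩⟩
    · rw [c3, a3]
      simp only [jdim, List.map_cons, List.sum_cons]
      omega
    · have e : (T.prim X ⊗ tprod T C l) ⊗ pow T.L (s + 1) ≅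
          (T.prim X ⊗ (tprod T C l ⊗ pow T.L s)) ⊗ T.L :=
        (α_ _ _ _).symm ≪≫ (tensorRight T.L).mapIso (α_ _ _ _)
      exact ((retIso e).trans (retRight (retLeft R _) T.L)).trans Q

lemma below_iso {E A B : 𝓜} (h : Below T.L E A) (e : B ≅ A) : Below T.L E B :=
  .summand h ⟨retIso e⟩

lemma below_pow {E : 𝓜} (hL : Below T.L E T.L) (k : ℕ) : Below T.L E (pow T.L k) := by
  induction k with
  | zero => exact .unit
  | succ k ih => exact .tensor ih hL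

/-- a twist of the unit in the square of a product -/
lemma square_tprod (hT : T.Facts) {C : T.Hyp} (hC : T.Smooth C ∧ 3 ≤ T.deg C)
    (l : List T.Hyp) (hl : ∀ X ∈ l, T.Smooth X ∧ 3 ≤ T.deg X) :
    ∃ N, Nonempty (Retract (pow T.L N) (tprod T C l ⊗ tprod T C l)) := by
  induction l with
  | nil => exact ⟨_, hT.poincare C hC.1 hC.2⟩
  | cons X l ih =>
    obtain ⟨N, ⟨R⟩⟩ := ih (fun Y hY => hl Y (List.mem_cons_of_mem _ hY))
    obtain ⟨b1, b2⟩ := hl X List.mem_cons_self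
    obtain ⟨Q⟩ := hT.poincare X b1 b2
    refine ⟨T.dim X + N, ⟨?_⟩⟩
    exact (((retIso (powAdd T.L _ _)).trans (retRight Q _)).trans (retLeft R _)).trans
      (retIso (shuffle _ _ _ _).symm)

lemma squares_below (hT : T.Facts) {E : 𝓜} {C : T.Hyp} (hC : T.Smooth C ∧ 3 ≤ T.deg C)
    (hL : Below T.L E T.L) (l : List T.Hyp) (hl : ∀ X ∈ l, T.Smooth X ∧ 3 ≤ T.deg X)
    (h : Below T.L E (tprod T C l ⊗ tprod T C l)) : ∀ X ∈ l, Below T.L E (T.prim X ⊗ T.prim X) := by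
  induction l with
  | nil => simp
  | cons X l ih =>
    obtain ⟨b1, b2⟩ := hl X List.mem_cons_self
    have hl' : ∀ Y ∈ l, T.Smooth Y ∧ 3 ≤ T.deg Y := fun Y hY => hl Y (List.mem_cons_of_mem _ hY)
    obtain ⟨N, ⟨R⟩⟩ := square_tprod hT hC l hl'
    obtain ⟨Q⟩ := hT.poincare X b1 b2
    have h1 : Below T.L E ((T.prim X ⊗ T.prim X) ⊗ (tprod T C l ⊗ tprod T C l)) :=
      below_iso h (shuffle _ _ _ _).symm
    have h2 : Below T.L E (T.prim X ⊗ T.prim X) :=
      .untwist N (below_pow hL N) (.summand h1 ⟨retLeft R _⟩)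
    have h3 : Below T.L E (tprod T C l ⊗ tprod T C l) :=
      .untwist (T.dim X) (below_pow hL _) (.summand (below_iso h1 (β_ _ _)) ⟨retLeft Q _⟩)
    intro Y hY
    rcases List.mem_cons.1 hY with rfl | hY
    · exact h2
    · exact ih hl' h3 Y hY

omit [BraidedCategory 𝓜] in
lemma squares_total {E : 𝓜} (hL : Below T.L E T.L) (l : List T.Hyp)
    (h : ∀ X ∈ l, Below T.L E (T.prim X ⊗ T.prim X)) :
    ∃ A, Squares A (T.total l) ∧ Below T.L E A := by
  induction l with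
  | nil => exact ⟨_, .one _, .tensor hL hL⟩
  | cons X l ih =>
    obtain ⟨A, h1, h2⟩ := ih (fun Y hY => h Y (List.mem_cons_of_mem _ hY))
    exact ⟨_, .add (.one _) h1, .sum (h X List.mem_cons_self) h2⟩

omit [BraidedCategory 𝓜] [Limits.HasBinaryBiproducts 𝓜] in
/-- iterated suspensions -/
lemma susps_per {T : PeriodData.{v, u, w} 𝓜} (hT : ∀ X W : T.Hyp, T.Susp X W → T.Smooth W ∧
      T.deg W = T.deg X ∧ T.dim W = T.dim X + 2 ∧
        Nonempty (Retract (T.prim X ⊗ T.L) (T.prim W)))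
    (hs : ∀ X : T.Hyp, T.Smooth X → 2 ≤ T.deg X → ∃ W, T.Susp X W) {X : T.Hyp}
    (hX : T.Smooth X) (hd : 2 ≤ T.deg X) (k : ℕ) :
    ∃ W, Relation.ReflTransGen T.Susp X W ∧ T.Smooth W ∧ T.deg W = T.deg X ∧
      T.dim W = T.dim X + 2 * k ∧ Nonempty (Retract (T.prim X ⊗ pow T.L k) (T.prim W)) := by
  induction k with
  | zero => exact ⟨X, .refl, hX, rfl, rfl, ⟨retIso (ρ_ _)⟩⟩
  | succ k ih =>
    obtain ⟨W, h, a1, a2, a3, ⟨R⟩⟩ := ih
    obtain ⟨W', h'⟩ := hs W a1 (a2 ▸ hd)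
    obtain ⟨b1, b2, b3, ⟨Q⟩⟩ := hT W W' h'
    refine ⟨W', h.tail h', b1, b2.trans a2, by omega, ⟨?_⟩⟩
    exact ((retIso (α_ _ _ _).symm).trans (retRight R T.L)).trans Q

/-- the period conjecture for a list of hypersurfaces from one hypersurface -/
lemma pc_total (hT : T.Facts) (S : Set (ℕ × ℕ)) (hS : AnyCofinal S) (ω : ℕ → ℕ)
    (hω : Filter.Tendsto ω Filter.atTop Filter.atTop)
    (h : ∀ X W : T.Hyp, T.Smooth X → Relation.ReflTransGen T.Susp X W →
      (T.dim W, T.deg W) ∈ S → T.dim X ≤ ω (T.dim W) → T.PC (T.prim W ⊞ T.L))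
    (l : List T.Hyp) (hl : ∀ X ∈ l, T.Smooth X) : T.PC (T.total l) := by
  obtain ⟨D, hD, H⟩ := cover_list hT l hl
  set b := jdim (l.map T.dim) + 3 with hb
  obtain ⟨N₀, hN₀⟩ := Filter.eventually_atTop.1 (hω.eventually_ge_atTop b)
  obtain ⟨⟨n, d⟩, hp, hn, hdvd, hd⟩ := hS (max N₀ b) (D * 3) (by omega)
  simp only at hn hdvd hd
  obtain ⟨e, he⟩ := hdvd
  have he0 : 0 < e := by
    rcases Nat.eq_zero_or_pos e with h0 | h0
    · rw [h0] at he; omega
    · exact h0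
  obtain ⟨l', h1, h2, ⟨R⟩⟩ := H (3 * e) (by omega)
  have hdd : D * (3 * e) = d := by rw [he]; ring
  have hd3 : 3 ≤ d := by
    rw [← hdd]
    calc 3 ≤ 1 * (3 * e) := by omega
      _ ≤ _ := Nat.mul_le_mul_right _ hD
  obtain ⟨C, hC1, hC2, hC3⟩ := hT.curve d hd
  -- adjust the parity
  obtain ⟨l₂, hsub, hl₂, hpar, hle⟩ : ∃ l₂ : List T.Hyp, (∀ X ∈ l', X ∈ l₂) ∧
      (∀ X ∈ l₂, T.Smooth X ∧ T.deg X = d) ∧ (∃ k, n = jdim (l₂.map T.dim) + 2 * k) ∧
        jdim (l₂.map T.dim) ≤ b := by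
    have hnb : b ≤ n := le_trans (le_max_right _ _) hn
    have hl'd : ∀ X ∈ l', T.Smooth X ∧ T.deg X = d := fun X hX => by
      rw [← hdd]; exact h1 X hX
    rcases Nat.even_or_odd' (n - jdim (l.map T.dim)) with ⟨k, hk | hk⟩
    · exact ⟨l', fun X hX => hX, hl'd, ⟨k, by rw [h2]; omega⟩, by rw [h2]; omega⟩
    · refine ⟨C :: l', fun X hX => List.mem_cons_of_mem _ hX, ?_, ⟨k - 1, ?_⟩, ?_⟩
      · intro X hX
        rcases List.mem_cons.1 hX with rfl | hX
        · exact ⟨hC1, hC3⟩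
        · exact hl'd X hX
      · have : jdim ((C :: l').map T.dim) = jdim (l.map T.dim) + 3 := by
          rw [List.map_cons, h2]; simp only [jdim, List.map_cons, List.sum_cons]; omega
        omega
      · have : jdim ((C :: l').map T.dim) = jdim (l.map T.dim) + 3 := by
          rw [List.map_cons, h2]; simp only [jdim, List.map_cons, List.sum_cons]; omega
        omega
  obtain ⟨k, hk⟩ := hpar
  obtain ⟨J, s, j1, j2, j3, ⟨Q⟩⟩ := join_list hT ⟨hC1, hC2, hC3⟩ l₂ hl₂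
  obtain ⟨W, w1, w2, w3, w4, ⟨P⟩⟩ := susps_per hT.susp_prop hT.susp j1 (by omega) k
  have hPC : T.PC (T.prim W ⊞ T.L) := by
    refine h J W j1 w1 ?_ ?_
    · rw [show T.dim W = n by omega, show T.deg W = d by rw [w3, j2]]
      exact hp
    · rw [show T.dim W = n by omega, j3]
      exact hle.trans (hN₀ n (le_trans (le_max_left _ _) hn))
  have bL : Below T.L (T.prim W ⊞ T.L) T.L :=
    .summand .self ⟨⟨biprod.inr, biprod.snd, by simp⟩⟩
  have bW : Below T.L (T.prim W ⊞ T.L) (T.prim W) :=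
    .summand .self ⟨⟨biprod.inl, biprod.fst, by simp⟩⟩
  have bJ : Below T.L (T.prim W ⊞ T.L) (T.prim J) :=
    .untwist k (below_pow bL k) (.summand bW ⟨P⟩)
  have bT : Below T.L (T.prim W ⊞ T.L) (tprod T C l₂) :=
    .untwist s (below_pow bL s) (.summand bJ ⟨Q⟩)
  have h3 : ∀ X ∈ l₂, T.Smooth X ∧ 3 ≤ T.deg X := fun X hX =>
    ⟨(hl₂ X hX).1, by rw [(hl₂ X hX).2]; exact hd3⟩
  have bS := squares_below hT (C := C) ⟨hC1, by omega⟩ bL l₂ h3 (.tensor bT bT)
  obtain ⟨A, hA, bA⟩ := squares_total bL l' (fun X hX => bS X (hsub X hX))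
  have hAPC := pc_below hT bA hPC
  obtain ⟨i1, i2⟩ := hT.isogeny A _ hA
  have hl'PC : T.PC (T.total l') := by
    unfold PC at *
    omega
  exact pc_below hT (.summand .self ⟨R⟩) hl'PC

/-- main theorem -/
theorem final (hT : T.Facts) (S : Set (ℕ × ℕ)) (hS : AnyCofinal S) (ω : ℕ → ℕ)
    (hω : Filter.Tendsto ω Filter.atTop Filter.atTop) :
    (∀ X W : T.Hyp, T.Smooth X → Relation.ReflTransGen T.Susp X W →
      (T.dim W, T.deg W) ∈ S → T.dim X ≤ ω (T.dim W) → T.PC (T.prim W ⊞ T.L)) ↔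
    ∀ l : List T.Hyp, (∀ X ∈ l, T.Smooth X) → ∀ N, Below T.L (T.total l) N → T.PC N := by
  constructor
  · intro h l hl N hN
    exact pc_below hT hN (pc_total hT S hS ω hω h l hl)
  · intro h X W hX hW _ _
    have hs : T.Smooth W := by
      induction hW with
      | refl => exact hX
      | tail _ h2 _ => exact (hT.susp_prop _ _ h2).1
    exact h [W] (by simpa using hs) _ .self

end PeriodData

end Pool.Agent.Q28.HJ
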