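import Pool.Agent.Q28.HJ.GMain

/-!
# Sums of small forms: a class of hypersurfaces of all dimensions
-/

open CategoryTheory MonoidalCategory

universe v u w

namespace Pool.Agent.Q28.HJ

variable {𝓜 : Type u} [Category.{v} 𝓜] [Preadditive 𝓜] [MonoidalCategory 𝓜]

namespace JoinData

variable (T : JoinData.{v, u, w} 𝓜)

/-- The hypersurface `W` is given by a sum, in disjoint sets of variables, of forms `f_j` or
`f_j - u^d` of degree `d ≥ 2`, where the `f_j` have at most two variables, or `d = 3` and they have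
at most six variables, or `d = 4` and they have at most four variables. The number of summands and
so the dimension of `W` is arbitrary. -/
def IsSmallSum (W : T.Hyp) : Prop :=
  ∃ d e : ℕ, 2 ≤ d ∧ (e = 0 ∨ d = 3 ∧ e = 4 ∨ d = 4 ∧ e = 2) ∧ T.SumOf (T.blocks (T.forms d e)) W

/-- The primitive motives of the small blocks are generated by motives with the property `Q`: those
of smooth hypersurfaces of dimension at most one, of smooth cubic hypersurfaces of dimension at most
five, and of smooth quartic hypersurfaces of dimension at most three. -/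
def SmallFacts (Q : 𝓜 → Prop) : Prop :=
  ∀ X : T.Hyp, T.Smooth X →
    (T.dim X ≤ 1 ∨ T.deg X = 3 ∧ T.dim X ≤ 5 ∨ T.deg X = 4 ∧ T.dim X ≤ 3) →
      GenBy T.L Q (T.prim X)

variable {T} {Q : 𝓜 → Prop}

/-- **Sums of small forms.** Their primitive motives are generated by those of the blocks. -/
theorem small_sum (hT : T.CoreFacts) (hQ : T.SmallFacts Q) {W : T.Hyp} (h : T.IsSmallSum W) :
    T.Smooth W ∧ GenBy T.L Q (T.prim W) := by
  obtain ⟨d, e, hd, he, h⟩ := h
  have := genBy_sum hT hd (B := T.forms d e) (fun X hX => ⟨hX.1, hX.2.1⟩) (fun X hX hdX => ?_)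
    (P := Q) ?_ h
  · exact ⟨this.1.1, this.2.1⟩
  · obtain ⟨a, b⟩ := hT.diag_prop hX
    exact ⟨a, hdX, by omega⟩
  · rintro X (⟨h1, h2, h3⟩ | ⟨Y, ⟨h1, h2, h3⟩, hY⟩)
    · exact hQ X h1 (by omega)
    · obtain ⟨a, b, c⟩ := hT.cyc_prop hY
      exact hQ X a (by omega)

/-- A property of motives which is stable under tensor products, direct sums, direct summands and
Tate twists (in both directions), and holds for the blocks, holds for `W`. -/
theorem genBy_property {P : 𝓜 → Prop} {L : 𝓜} (hu : P (𝟙_ 𝓜)) (hL : P L)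
    (ht : ∀ M N, P M → P N → P (M ⊗ N))
    (hs : ∀ (M A A' : 𝓜) (i₁ : M ⟶ A) (r₁ : A ⟶ M) (i₂ : M ⟶ A') (r₂ : A' ⟶ M),
      i₁ ≫ r₁ + i₂ ≫ r₂ = 𝟙 M → P A → P A' → P M)
    (hw : ∀ M, P (M ⊗ L) → P M) (hQ : ∀ M, Q M → P M) {M : 𝓜} (h : GenBy L Q M) : P M := by
  induction h with
  | of h => exact hQ _ h
  | unit => exact hu
  | lef => exact hL
  | tensor _ _ a b => exact ht _ _ a b
  | split i₁ r₁ i₂ r₂ e _ _ a b => exact hs _ _ _ i₁ r₁ i₂ r₂ e a b
  | untwist _ a => exact hw _ a

end JoinData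

end Pool.Agent.Q28.HJ
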