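import Pool.Agent.Q28.HJ.GDefs

/-!
# The motives of sums of forms are generated by those of the forms
-/

open CategoryTheory MonoidalCategory

universe v u w

namespace Pool.Agent.Q28.HJ

variable {𝓜 : Type u} [Category.{v} 𝓜] [Preadditive 𝓜] [MonoidalCategory 𝓜]

lemma GenBy.bind {L : 𝓜} {P Q : 𝓜 → Prop} (h : ∀ M, P M → GenBy L Q M) {M : 𝓜}
    (hM : GenBy L P M) : GenBy L Q M := by
  induction hM with
  | of hM => exact h _ hM
  | unit => exact .unit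
  | lef => exact .lef
  | tensor _ _ ih₁ ih₂ => exact .tensor ih₁ ih₂
  | split i₁ r₁ i₂ r₂ e _ _ ih₁ ih₂ => exact .split i₁ r₁ i₂ r₂ e ih₁ ih₂
  | untwist _ ih => exact .untwist ih

lemma GenBy.retract {L : 𝓜} {P : 𝓜 → Prop} {M A : 𝓜} (h : GenBy L P A) (R : Retract M A) :
    GenBy L P M :=
  .split R.i R.r 0 0 (by rw [R.retract, Limits.comp_zero, add_zero]) h h

namespace JoinData

variable {T : JoinData.{v, u, w} 𝓜} {P : 𝓜 → Prop}

lemma genBy_join (hT : T.CoreFacts) {X Y W X' Y' : T.Hyp} (h : T.Join X Y W) (hX : T.Cyc X X')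
    (hY : T.Cyc Y Y') (a : GenBy T.L P (T.prim X)) (b : GenBy T.L P (T.prim Y))
    (a' : GenBy T.L P (T.prim X')) (b' : GenBy T.L P (T.prim Y')) : GenBy T.L P (T.prim W) := by
  obtain ⟨i₁, r₁, i₂, r₂, e⟩ := hT.join_split h hX hY
  exact .split i₁ r₁ i₂ r₂ e (.tensor a' b') (.tensor (.tensor a b) .lef)

/-- the primitive motive of a sum of blocks is generated by those of the blocks -/
lemma genBy_sum (hT : T.CoreFacts) {d : ℕ} (hd : 2 ≤ d) {B : Set T.Hyp}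
    (hB : ∀ X ∈ B, T.Smooth X ∧ T.deg X = d) (hP : ∀ X, T.Diag X → T.deg X = d → X ∈ B)
    (hG : ∀ X ∈ T.blocks B, GenBy T.L P (T.prim X)) {W : T.Hyp} (h : T.SumOf (T.blocks B) W) :
    (T.Smooth W ∧ T.deg W = d) ∧ GenBy T.L P (T.prim W) ∧
      ∀ W', T.Cyc W W' → GenBy T.L P (T.prim W') := by
  have key : ∀ {X X' X'' : T.Hyp}, T.deg X = d → GenBy T.L P (T.prim X) → T.Cyc X X' →
      GenBy T.L P (T.prim X') → T.Cyc X' X'' → GenBy T.L P (T.prim X'') := by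
    intro X X' X'' hX a h1 a' h2
    obtain ⟨Q, p1, p2, p3⟩ := hT.cyc_cyc h1 h2
    have hQB := hP Q p1 (p2.trans hX)
    obtain ⟨Q', hQ'⟩ := hT.cyc_exists Q (hB Q hQB).1 (by rw [(hB Q hQB).2]; exact hd)
    exact genBy_join hT p3 h1 hQ' a (hG Q (Or.inl hQB)) a' (hG Q' (Or.inr ⟨Q, hQB, hQ'⟩))
  induction h with
  | @base X hX =>
    refine ⟨?_, hG X hX, fun W' hW' => ?_⟩
    · rcases hX with hX | ⟨X₀, h₀, h⟩
      · exact hB X hX
      · obtain ⟨a, b, -⟩ := hT.cyc_prop h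
        exact ⟨a, b.trans (hB X₀ h₀).2⟩
    · rcases hX with hX | ⟨X₀, h₀, h⟩
      · exact hG W' (Or.inr ⟨X, hX, hW'⟩)
      · exact key (hB X₀ h₀).2 (hG X₀ (Or.inl h₀)) h (hG X (Or.inr ⟨X₀, h₀, h⟩)) hW'
  | @join X Y W _ _ h ih₁ ih₂ =>
    obtain ⟨s₁, a₁, c₁⟩ := ih₁
    obtain ⟨s₂, a₂, c₂⟩ := ih₂
    obtain ⟨j1, j2, -⟩ := hT.join_prop h
    obtain ⟨X', hX'⟩ := hT.cyc_exists X s₁.1 (by rw [s₁.2]; exact hd)
    refine ⟨⟨j1, j2.trans s₁.2⟩, ?_, fun W' hW' => ?_⟩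
    · obtain ⟨Y', hY'⟩ := hT.cyc_exists Y s₂.1 (by rw [s₂.2]; exact hd)
      exact genBy_join hT h hX' hY' a₁ a₂ (c₁ X' hX') (c₂ Y' hY')
    · obtain ⟨Y', hY', hj⟩ := hT.join_cyc h hW'
      obtain ⟨k1, k2, -⟩ := hT.cyc_prop hY'
      obtain ⟨Y'', hY''⟩ := hT.cyc_exists Y' k1 (by rw [k2, s₂.2]; exact hd)
      exact genBy_join hT hj hX' hY'' a₁ (c₂ Y' hY') (c₁ X' hX')
        (key s₂.2 a₂ hY' (c₂ Y' hY') hY'')

/-- **Sums of ternary cubic or binary quartic forms.** Their primitive motives are generated by the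
motives `h^1` of elliptic curves. -/
theorem elliptic_sum (hT : T.CoreFacts) {E : 𝓜 → Prop} (hE : T.EllipticFacts E) {W : T.Hyp}
    (h : T.IsEllipticSum W) : (T.Smooth W ∧ T.deg W ≤ 4) ∧ GenBy T.L E (T.prim W) := by
  rcases h with h | h
  · have := genBy_sum hT (d := 3) (by norm_num) (B := T.forms 3 1)
      (fun X hX => ⟨hX.1, hX.2.1⟩) (fun X hX hd => ?_) (P := E) ?_ h
    · exact ⟨⟨this.1.1, by omega⟩, this.2.1⟩
    · obtain ⟨a, b⟩ := hT.diag_prop hX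
      exact ⟨a, hd, by omega⟩
    · rintro X (⟨h1, h2, h3⟩ | ⟨Y, ⟨h1, h2, h3⟩, hY⟩)
      · exact hE.cubic X h1 h2 (by omega)
      · obtain ⟨a, b, c⟩ := hT.cyc_prop hY
        exact hE.cubic X a (by omega) (by omega)
  · have := genBy_sum hT (d := 4) (by norm_num) (B := T.forms 4 0)
      (fun X hX => ⟨hX.1, hX.2.1⟩) (fun X hX hd => ?_) (P := E) ?_ h
    · exact ⟨⟨this.1.1, by omega⟩, this.2.1⟩
    · obtain ⟨a, b⟩ := hT.diag_prop hX
      exact ⟨a, hd, by omega⟩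
    · rintro X (⟨h1, h2, h3⟩ | ⟨Y, ⟨h1, h2, h3⟩, hY⟩)
      · exact hE.points X h1 (by omega)
      · exact hE.quartic Y X h1 h2 (by omega) hY

/-- **Sums of binary forms, and of cubic forms in at most four variables.** Their primitive motives
are generated by the motives of abelian varieties. -/
theorem abelian_sum (hT : T.CoreFacts) {A : 𝓜 → Prop} (hA : T.AbelianFacts A) {W : T.Hyp}
    (h : T.IsAbelianSum W) : T.Smooth W ∧ GenBy T.L A (T.prim W) := by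
  rcases h with ⟨d, hd, h⟩ | h
  · have := genBy_sum hT (d := d) hd (B := T.forms d 0)
      (fun X hX => ⟨hX.1, hX.2.1⟩) (fun X hX hd => ?_) (P := A) ?_ h
    · exact ⟨this.1.1, this.2.1⟩
    · obtain ⟨a, b⟩ := hT.diag_prop hX
      exact ⟨a, hd, by omega⟩
    · rintro X (⟨h1, h2, h3⟩ | ⟨Y, ⟨h1, h2, h3⟩, hY⟩)
      · exact hA.curves X h1 (by omega)
      · obtain ⟨a, b, c⟩ := hT.cyc_prop hY
        exact hA.curves X a (by omega)
  · have := genBy_sum hT (d := 3) (by norm_num) (B := T.forms 3 2)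
      (fun X hX => ⟨hX.1, hX.2.1⟩) (fun X hX hd => ?_) (P := A) ?_ h
    · exact ⟨this.1.1, this.2.1⟩
    · obtain ⟨a, b⟩ := hT.diag_prop hX
      exact ⟨a, hd, by omega⟩
    · rintro X (⟨h1, h2, h3⟩ | ⟨Y, ⟨h1, h2, h3⟩, hY⟩)
      · exact hA.cubic X h1 h2 (by omega)
      · obtain ⟨a, b, c⟩ := hT.cyc_prop hY
        exact hA.cubic X a (by omega) (by omega)

end JoinData

end Pool.Agent.Q28.HJ
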