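import Pool.Agent.Q28.HJ.FDefs

/-!
# Hodge classes on sums of general binary forms: definitions
-/

open CategoryTheory MonoidalCategory

universe v u w v' u'

namespace Pool.Agent.Q28.HJ

/-- The data `JoinData` for complex hypersurfaces (`𝓜` is the category of homological motives), the
functor to the category `𝓗` of rational Hodge structures, and the admissible subcategories of the
derived categories. -/
structure HodgeData (𝓜 : Type u) [Category.{v} 𝓜] (𝓗 : Type u') [Category.{v'} 𝓗]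
    extends JoinData.{v, u, w} 𝓜 where
  /-- the Hodge structure on the cohomology of a motive -/
  H : 𝓜 ⥤ 𝓗
  /-- the admissible subcategories of `D^perf(X)` -/
  Adm : Hyp → Type w
  /-- the whole category `D^perf(X)` -/
  perf : ∀ X, Adm X
  /-- `K_0(C) ⊗ ℚ → Hdg(C, ℚ)` is surjective, for the admissible subcategory `C` of `D^perf(X)` -/
  NCHodge : ∀ {X}, Adm X → Prop
  /-- the property `P` holds for very general binary forms of degree `d`: for all forms outside a
  countable union of proper closed subvarieties of the space of forms (a form with simple zeros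
  defines a smooth hypersurface of dimension zero) -/
  VeryGeneral : ℕ → (Hyp → Prop) → Prop

namespace HodgeData

variable {𝓜 : Type u} [Category.{v} 𝓜] [Preadditive 𝓜] [MonoidalCategory 𝓜]
  {𝓗 : Type u'} [Category.{v'} 𝓗] [Preadditive 𝓗] (T : HodgeData.{v, u, w, v', u'} 𝓜 𝓗)

/-- The Hodge conjecture for `M`: all Hodge classes in the cohomology of `M`, that is, all morphisms
of Hodge structures from the one of `L^i` to the one of `M`, are algebraic. -/
def HC (M : 𝓜) : Prop :=
  ∀ (i : ℕ) (φ : T.H.obj (pow T.L i) ⟶ T.H.obj M), ∃ f : pow T.L i ⟶ M, T.H.map f = φ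

/-- `Y : f(x, y) = 0` is general with respect to `V : g(z) = 0`: there are no Hodge classes in
`H_prim(V') ⊗ H^1(C)`, where `V' : g(z) = u^d` and `C` is the curve `f(x, y) = u^d`. -/
def GeneralFor (V Y : T.Hyp) : Prop :=
  ∀ V' C, T.Cyc V V' → T.Cyc Y C → ∀ (i : ℕ)
    (φ : T.H.obj (pow T.L i) ⟶ T.H.obj (T.prim V' ⊗ T.prim C)), φ = 0

/-- `W` has the equation `g(z) + f_1(x_1, y_1) + ⋯ + f_r(x_r, y_r) = 0`, where `g` is the equation of
`V` and `f_j` is a binary form which is general with respect to `g + f_1 + ⋯ + f_(j-1)`. -/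
inductive Tower (V : T.Hyp) : T.Hyp → Prop
  | base : Tower V V
  | step {U Y W : T.Hyp} (h : Tower V U) (hY : T.Smooth Y) (h0 : T.dim Y = 0)
      (hg : T.GeneralFor U Y) (hj : T.Join U Y W) : Tower V W

/-- Known facts.
* `join_prop`, `join_retract`, `join_split`, `cyc_exists`, `points`: as in `JoinFacts` (Shioda,
  Katsura; elementary). `unit`: the unit motive is a summand of the primitive motive of `d ≥ 2`
  points.
* `twist`: the Hodge conjecture for `M ⊗ L` and for `M` are equivalent.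
* `general`: let `V` be a smooth hypersurface of degree `d ≥ 5`, `d ≠ 6`. A very general binary form
  of degree `d` defines a smooth `Y` which is general with respect to `V`. (The local systems
  `H^1(C)_χ` over the space of binary forms are irreducible with infinite monodromy, so a fixed
  Hodge structure has no nonzero morphism to the `H^1(C)` of a very general form.)
* `lefschetz`, `quintic`: the Hodge conjecture holds for surfaces, and for uniruled fourfolds (Conte,
  Murre), such as smooth quintic fourfolds.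
* `nc_perf`, `nc_adm`: for `D^perf(X)` the noncommutative Hodge conjecture is the Hodge conjecture for
  `X`, and it passes to admissible subcategories. -/
structure Facts : Prop where
  join_prop : ∀ {X Y W : T.Hyp}, T.Join X Y W → T.Smooth W ∧ T.deg W = T.deg X ∧
    T.deg W = T.deg Y ∧ T.dim W = T.dim X + T.dim Y + 2
  join_retract : ∀ {X Y W : T.Hyp}, T.Join X Y W →
    Nonempty (Retract ((T.prim X ⊗ T.prim Y) ⊗ T.L) (T.prim W))
  join_split : ∀ {X Y W X' Y' : T.Hyp}, T.Join X Y W → T.Cyc X X' → T.Cyc Y Y' →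
    ∃ (i₁ : T.prim W ⟶ T.prim X' ⊗ T.prim Y') (r₁ : T.prim X' ⊗ T.prim Y' ⟶ T.prim W)
      (i₂ : T.prim W ⟶ (T.prim X ⊗ T.prim Y) ⊗ T.L) (r₂ : (T.prim X ⊗ T.prim Y) ⊗ T.L ⟶ T.prim W),
      i₁ ≫ r₁ + i₂ ≫ r₂ = 𝟙 _
  cyc_exists : ∀ X : T.Hyp, T.Smooth X → 2 ≤ T.deg X → ∃ X', T.Cyc X X'
  points : ∀ X : T.Hyp, T.Smooth X → T.dim X = 0 → ∃ (n : ℕ) (i : Fin n → (T.prim X ⟶ 𝟙_ 𝓜))
    (r : Fin n → (𝟙_ 𝓜 ⟶ T.prim X)), ∑ j, i j ≫ r j = 𝟙 _
  unit : ∀ X : T.Hyp, T.Smooth X → T.dim X = 0 → 2 ≤ T.deg X →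
    Nonempty (Retract (𝟙_ 𝓜) (T.prim X))
  twist : ∀ M : 𝓜, T.HC (M ⊗ T.L) ↔ T.HC M
  general : ∀ V : T.Hyp, T.Smooth V → 5 ≤ T.deg V → T.deg V ≠ 6 →
    T.VeryGeneral (T.deg V) (fun Y => T.Smooth Y ∧ T.dim Y = 0 ∧ T.deg Y = T.deg V ∧
      T.GeneralFor V Y)
  lefschetz : ∀ X : T.Hyp, T.Smooth X → T.dim X ≤ 2 → T.HC (T.prim X)
  quintic : ∀ X : T.Hyp, T.Smooth X → T.dim X = 4 → T.deg X = 5 → T.HC (T.prim X)
  nc_perf : ∀ X : T.Hyp, T.Smooth X → (T.NCHodge (T.perf X) ↔ T.HC (T.prim X))
  nc_adm : ∀ X : T.Hyp, T.Smooth X → T.NCHodge (T.perf X) → ∀ C : T.Adm X, T.NCHodge C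

end HodgeData

end Pool.Agent.Q28.HJ
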