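import Pool.Agent.Q28.HJ.RDefs
import Pool.Agent.Q28.HJ.GMain

/-!
# De Rham-Betti classes on sums of ternary cubic forms
-/

open CategoryTheory MonoidalCategory

universe v u w v' u'

namespace Pool.Agent.Q28.HJ

namespace DRBData

variable {𝓜 : Type u} [Category.{v} 𝓜] [Preadditive 𝓜] [MonoidalCategory 𝓜]
  {𝓓 : Type u'} [Category.{v'} 𝓓] {T : DRBData.{v, u, w, v', u'} 𝓜 𝓓}

/-- main theorem -/
theorem final (hT : T.Facts) (M : 𝓜)
    (hM : GenBy T.L (fun N => T.Ell N ∨ ∃ W, T.IsEllipticSum W ∧ N = T.mot W) M) : T.GPC M := by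
  refine hT.ksv M (hM.bind ?_)
  rintro N (hN | ⟨W, hW, rfl⟩)
  · exact .of hN
  · obtain ⟨⟨hs, -⟩, h⟩ := JoinData.elliptic_sum hT.core hT.elliptic hW
    refine (hT.mot W hs).bind ?_
    rintro N rfl
    exact h

end DRBData

end Pool.Agent.Q28.HJ
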