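import Mathlib

/-!
# Chow groups and primitive motives of hypersurfaces: definitions
-/

open CategoryTheory MonoidalCategory

universe v u w

namespace Pool.Agent.Q28.HJ

/-- The tensor powers `L^i`. -/
def pow {𝓜 : Type u} [Category.{v} 𝓜] [MonoidalCategory 𝓜] (L : 𝓜) : ℕ → 𝓜
  | 0 => 𝟙_ 𝓜
  | i + 1 => pow L i ⊗ L

/-- The category `𝓜` (in the intended use: Chow motives over the complex numbers, rational
coefficients) and the complex projective hypersurfaces: their dimensions, degrees, Chow groups,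
hyperplane sections and primitive motives. -/
structure HypData (𝓜 : Type u) [Category.{v} 𝓜] where
  /-- the Lefschetz motive -/
  L : 𝓜
  /-- The complex hypersurfaces `X` in projective spaces `ℙ^(n+1)`, `n ≥ 0`, which are smooth, or
  have isolated singularities and `n ≥ 2`. -/
  Hyp : Type w
  /-- the dimension `n` -/
  dim : Hyp → ℕ
  /-- the degree -/
  deg : Hyp → ℕ
  /-- the hypersurface is smooth -/
  Smooth : Hyp → Prop
  /-- the *primitive motive* `M_X = (X, Δ - (1/d) ∑ h^j × h^(n-j))` of a smooth hypersurface `X` of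
  dimension `n` and degree `d`; its cohomology is the primitive cohomology of `X`, of degree `n` -/
  prim : Hyp → 𝓜
  /-- the relation `Susp X W`: `X` is a smooth hypersurface with equation `f(x) = 0` of degree
  `d ≥ 2`, and `W` is its *suspension* with equation `f(x) + y_0^d + y_1^d = 0` -/
  Susp : Hyp → Hyp → Prop
  /-- the Chow group `A^i(X)` of cycles of codimension `i` on `X`, with rational coefficients -/
  A : Hyp → ℕ → Type w
  [grp : ∀ X i, AddCommGroup (A X i)]
  [mod : ∀ X i, Module ℚ (A X i)]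
  /-- the class `h^i`, where `h` is the class of a hyperplane section -/
  h : ∀ X i, A X i
  /-- multiplication by `h` -/
  mulh : ∀ X i, A X i →ₗ[ℚ] A X (i + 1)
  /-- the hyperplane sections of `X` (those which are again in the class `Hyp`) -/
  Sec : Hyp → Type w
  /-- the hypersurface given by a hyperplane section -/
  sec : ∀ {X}, Sec X → Hyp
  /-- push-forward of cycles from a hyperplane section -/
  push : ∀ {X} (s : Sec X) (i : ℕ), A (sec s) i →ₗ[ℚ] A X (i + 1)
  /-- intersection of cycles with a hyperplane section -/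
  res : ∀ {X} (s : Sec X) (i : ℕ), A X i →ₗ[ℚ] A (sec s) i

attribute [instance] HypData.grp HypData.mod

namespace HypData

variable {𝓜 : Type u} [Category.{v} 𝓜] (T : HypData.{v, u, w} 𝓜)

/-- The statement `A^i(X) = ℚ h^i`. -/
def Hartshorne (X : T.Hyp) (i : ℕ) : Prop := ∀ z : T.A X i, ∃ c : ℚ, z = c • T.h X i

variable [Preadditive 𝓜] [MonoidalCategory 𝓜]

/-- Known facts on hypersurfaces and their Chow groups.
* `sec_dim` to `fund`: elementary properties of hyperplane sections, of the classes `h^i`, and of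
  the group of cycles of codimension zero.
* `link`: for a smooth `X` and `2 i < dim X`, `A^i(X)` is the direct sum of `ℚ h^i` and of
  `A^i(M_X) = Hom(L^i, M_X)`.
* `pencil`: the members of a general pencil of hyperplane sections have isolated singularities
  (Bertini), and a cycle whose restriction to all smooth members is zero is a sum of cycles lying
  on finitely many members (Bloch, Srinivas: the field is uncountable and algebraically closed).
* `faithful`: the Lefschetz motive is invertible.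
* `join` (Shioda, Katsura): for smooth hypersurfaces `X : f(x) = 0` and `Y : g(y) = 0` of the same
  degree `d`, `M_X ⊗ M_Y ⊗ L` is a direct summand of `M_W`, `W : f(x) + g(y) = 0`. (Take the family
  of the lines in `W` which join the points of `X` and of `Y`, `p : J → X × Y`, `q : J → W`; then
  `p_* q^* q_* p^*` is multiplication by `-d` on `M_X ⊗ M_Y`.)
* `susp`: the case where `Y` consists of `d ≥ 2` points, so that `M_Y` is a sum of `d - 1` copies of
  the unit motive.
* `cover`: for a smooth hypersurface `X : f(x) = 0`, in general coordinates, and `e ≥ 1` the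
  hypersurface `X' : f(x_0^e, x_1^e, …) = 0` is smooth and has a finite morphism to `X`. -/
structure Facts : Prop where
  sec_dim : ∀ {X : T.Hyp} (s : T.Sec X), T.dim (T.sec s) + 1 = T.dim X
  h_ne : ∀ (X : T.Hyp) (i : ℕ), i ≤ T.dim X → T.h X i ≠ 0
  push_h : ∀ {X : T.Hyp} (s : T.Sec X) (i : ℕ), T.push s i (T.h (T.sec s) i) = T.h X (i + 1)
  res_h : ∀ {X : T.Hyp} (s : T.Sec X) (i : ℕ), T.res s i (T.h X i) = T.h (T.sec s) i
  push_res : ∀ {X : T.Hyp} (s : T.Sec X) (i : ℕ) (z : T.A X i),
    T.push s i (T.res s i z) = T.mulh X i z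
  fund : ∀ X : T.Hyp, 2 ≤ T.dim X → T.Hartshorne X 0
  link : ∀ (X : T.Hyp) (i : ℕ), T.Smooth X → 2 * i < T.dim X →
    (T.Hartshorne X i ↔ ∀ f : pow T.L i ⟶ T.prim X, f = 0)
  pencil : ∀ X : T.Hyp, 3 ≤ T.dim X → ∃ P : Set (T.Sec X), ∀ (i : ℕ) (z : T.A X (i + 1)),
    (∀ s ∈ P, T.Smooth (T.sec s) → T.res s (i + 1) z = 0) →
      z ∈ Submodule.span ℚ {g | ∃ s ∈ P, ∃ w, g = T.push s i w}
  faithful : ∀ {M N : 𝓜} (f g : M ⟶ N), f ▷ T.L = g ▷ T.L → f = g
  join : ∀ X Y : T.Hyp, T.Smooth X → T.Smooth Y → T.deg X = T.deg Y → ∃ W, T.Smooth W ∧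
    T.deg W = T.deg X ∧ T.dim W = T.dim X + T.dim Y + 2 ∧
      Nonempty (Retract ((T.prim X ⊗ T.prim Y) ⊗ T.L) (T.prim W))
  susp : ∀ X : T.Hyp, T.Smooth X → 2 ≤ T.deg X → ∃ W, T.Susp X W
  susp_prop : ∀ X W : T.Hyp, T.Susp X W → T.Smooth W ∧ T.deg W = T.deg X ∧
    T.dim W = T.dim X + 2 ∧ Nonempty (Retract (T.prim X ⊗ T.L) (T.prim W))
  cover : ∀ (X : T.Hyp) (e : ℕ), T.Smooth X → 0 < e → ∃ X', T.Smooth X' ∧
    T.deg X' = T.deg X * e ∧ T.dim X' = T.dim X ∧ Nonempty (Retract (T.prim X) (T.prim X'))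
  deg_pos : ∀ X : T.Hyp, 0 < T.deg X

/-- `M` is a tensor product of primitive motives of smooth hypersurfaces (of any dimensions and
degrees), the sum of the dimensions being `N`. -/
inductive IsProd : ℕ → 𝓜 → Prop
  | one (X : T.Hyp) (hX : T.Smooth X) : IsProd (T.dim X) (T.prim X)
  | tensor {a b : ℕ} {M N : 𝓜} (hM : IsProd a M) (hN : IsProd b N) : IsProd (a + b) (M ⊗ N)

end HypData

/-- The set `S` of pairs `(n, d)` contains, for all `N, D ≥ 1`, a pair `(n, d)` with `n ≥ N` odd
and `d ≥ 1` divisible by `D`. -/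
def Cofinal (S : Set (ℕ × ℕ)) : Prop :=
  ∀ N D : ℕ, 0 < D → ∃ p ∈ S, Odd p.1 ∧ N ≤ p.1 ∧ D ∣ p.2 ∧ 0 < p.2

end Pool.Agent.Q28.HJ
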