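import Pool.Agent.Q28.HJ.Defs

/-!
# Hypersurfaces given by sums of forms in few variables: definitions
-/

open CategoryTheory MonoidalCategory

universe v u w

namespace Pool.Agent.Q28.HJ

/-- The data `HypData` (motives and Chow groups of hypersurfaces), together with the relations
between hypersurfaces given by sums of equations in disjoint sets of variables. -/
structure JoinData (𝓜 : Type u) [Category.{v} 𝓜] extends HypData.{v, u, w} 𝓜 where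
  /-- `Join X Y W`: the smooth hypersurfaces `X`, `Y`, `W` of the same degree `d` have the equations
  `f(x) = 0`, `g(y) = 0`, `f(x) + g(y) = 0` -/
  Join : Hyp → Hyp → Hyp → Prop
  /-- `Cyc X X'`: the smooth hypersurfaces `X`, `X'` of the same degree `d` have the equations
  `f(x) = 0` and `f(x) = u ^ d`, `u` a new variable (`X'` is a cyclic covering of the projective
  space, branched along `X`) -/
  Cyc : Hyp → Hyp → Prop
  /-- `Diag P`: `P` has the equation `u ^ d + v ^ d = 0`, `d ≥ 2` (it consists of `d` points) -/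
  Diag : Hyp → Prop

namespace JoinData

variable {𝓜 : Type u} [Category.{v} 𝓜] (T : JoinData.{v, u, w} 𝓜)

/-- The hypersurface belongs to the smallest class of hypersurfaces which contains `B` and contains
with `X : f(x) = 0` and `Y : g(y) = 0` also `W : f(x) + g(y) = 0`: it is given by a sum of equations
of hypersurfaces in `B`, in disjoint sets of variables. -/
inductive SumOf (B : Set T.Hyp) : T.Hyp → Prop
  | base {X : T.Hyp} (hX : X ∈ B) : SumOf B X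
  | join {X Y W : T.Hyp} (hX : SumOf B X) (hY : SumOf B Y) (h : T.Join X Y W) : SumOf B W

/-- The hypersurfaces `X : f(x) = 0` in `B` and the hypersurfaces `X' : f(x) = u ^ d`. -/
def blocks (B : Set T.Hyp) : Set T.Hyp := B ∪ {X' | ∃ X ∈ B, T.Cyc X X'}

variable [MonoidalCategory 𝓜]

/-- `M` is the tensor product `M_{X_1} ⊗ (M_{X_2} ⊗ (⋯ ⊗ 1))` of the primitive motives of
hypersurfaces `X_j ∈ B`, and `N = ∑ dim X_j`. -/
inductive ProdOf (B : Set T.Hyp) : ℕ → 𝓜 → Prop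
  | nil : ProdOf B 0 (𝟙_ 𝓜)
  | cons {N : ℕ} {M : 𝓜} (X : T.Hyp) (hX : X ∈ B) (hM : ProdOf B N M) :
      ProdOf B (N + T.dim X) (T.prim X ⊗ M)

variable [Preadditive 𝓜]

/-- `A^i(M_{X_1} ⊗ ⋯ ⊗ M_{X_r}) = 0` for all hypersurfaces `X_j ∈ B` and `i < (∑ dim X_j) / 2`. -/
def ProductVanishing (B : Set T.Hyp) : Prop :=
  ∀ (N : ℕ) (M : 𝓜), T.ProdOf B N M → ∀ i, 2 * i < N → ∀ f : pow T.L i ⟶ M, f = 0

/-- Known facts on motives of hypersurfaces.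
* `link`: for a smooth `X` and `2 i < dim X`, `A^i(X)` is the direct sum of `ℚ h^i` and of
  `A^i(M_X) = Hom(L^i, M_X)`.
* `faithful`, `full`: the Lefschetz motive is invertible. `eff`: Chow groups of cycles of negative
  codimension are zero. `zero`: `A^0(X_1 × ⋯ × X_r)` is spanned by fundamental classes.
* `join_split` (Shioda, Katsura): for `W : f(x) + g(y) = 0`, `X' : f(x) = u ^ d`, `Y' : g(y) = v ^ d`
  the motive `M_W` is isomorphic to `(M_{X'} ⊗ M_{Y'})^{μ_d} ⊕ M_X ⊗ M_Y ⊗ L`.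
* `join_cyc`, `cyc_cyc`: `(f(x) + g(y)) - u ^ d = f(x) + (g(y) - u ^ d)` and
  `(f(x) - u ^ d) - v ^ d = f(x) + (- u ^ d - v ^ d)`.
* `points`: for finite `P` the motive `M_P` is a finite sum of copies of the unit motive, not zero
  for `P : u ^ d + v ^ d = 0`.
* `restrict`: let `Y` be a smooth curve, `M` a motive with `A^i(M) = 0 = A^(i-1)(M)`; for
  `c ∈ A^i(M ⊗ h^1(Y))` all the restrictions of `c` to `M × y`, `y ∈ Y`, are zero, so that `c` is a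
  sum of classes `a_j × y_j`, `a_j ∈ A^(i-1)(M)` (Bloch, Srinivas), and `c = 0`. -/
structure JoinFacts : Prop where
  link : ∀ (X : T.Hyp) (i : ℕ), T.Smooth X → 2 * i < T.dim X →
    (T.Hartshorne X i ↔ ∀ f : pow T.L i ⟶ T.prim X, f = 0)
  faithful : ∀ {M N : 𝓜} (f g : M ⟶ N), f ▷ T.L = g ▷ T.L → f = g
  full : ∀ {M N : 𝓜} (f : M ⊗ T.L ⟶ N ⊗ T.L), ∃ g : M ⟶ N, f = g ▷ T.L
  eff : ∀ (B : Set T.Hyp), (∀ X ∈ B, T.Smooth X) → ∀ (N : ℕ) (M : 𝓜), T.ProdOf B N M →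
    ∀ i s, i < s → ∀ f : pow T.L i ⟶ M ⊗ pow T.L s, f = 0
  zero : ∀ (B : Set T.Hyp), (∀ X ∈ B, T.Smooth X) → ∀ (N : ℕ) (M : 𝓜), T.ProdOf B N M →
    0 < N → ∀ f : pow T.L 0 ⟶ M, f = 0
  join_exists : ∀ X Y : T.Hyp, T.Smooth X → T.Smooth Y → T.deg X = T.deg Y → ∃ W, T.Join X Y W
  join_prop : ∀ {X Y W : T.Hyp}, T.Join X Y W → T.Smooth W ∧ T.deg W = T.deg X ∧
    T.dim W = T.dim X + T.dim Y + 2
  join_retract : ∀ {X Y W : T.Hyp}, T.Join X Y W →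
    Nonempty (Retract ((T.prim X ⊗ T.prim Y) ⊗ T.L) (T.prim W))
  join_split : ∀ {X Y W X' Y' : T.Hyp}, T.Join X Y W → T.Cyc X X' → T.Cyc Y Y' →
    ∃ (i₁ : T.prim W ⟶ T.prim X' ⊗ T.prim Y') (r₁ : T.prim X' ⊗ T.prim Y' ⟶ T.prim W)
      (i₂ : T.prim W ⟶ (T.prim X ⊗ T.prim Y) ⊗ T.L) (r₂ : (T.prim X ⊗ T.prim Y) ⊗ T.L ⟶ T.prim W),
      i₁ ≫ r₁ + i₂ ≫ r₂ = 𝟙 _
  cyc_exists : ∀ X : T.Hyp, T.Smooth X → 2 ≤ T.deg X → ∃ X', T.Cyc X X'
  cyc_prop : ∀ {X X' : T.Hyp}, T.Cyc X X' → T.Smooth X' ∧ T.deg X' = T.deg X ∧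
    T.dim X' = T.dim X + 1
  join_cyc : ∀ {X Y W W' : T.Hyp}, T.Join X Y W → T.Cyc W W' →
    ∃ Y', T.Cyc Y Y' ∧ T.Join X Y' W'
  cyc_cyc : ∀ {X X' X'' : T.Hyp}, T.Cyc X X' → T.Cyc X' X'' →
    ∃ P, T.Diag P ∧ T.deg P = T.deg X ∧ T.Join X P X''
  diag_exists : ∀ d, 2 ≤ d → ∃ P, T.Diag P ∧ T.deg P = d
  diag_prop : ∀ {P : T.Hyp}, T.Diag P → T.Smooth P ∧ T.dim P = 0 ∧
    Nonempty (Retract (𝟙_ 𝓜) (T.prim P))
  points : ∀ X : T.Hyp, T.Smooth X → T.dim X = 0 → ∃ (n : ℕ) (i : Fin n → (T.prim X ⟶ 𝟙_ 𝓜))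
    (r : Fin n → (𝟙_ 𝓜 ⟶ T.prim X)), ∑ j, i j ≫ r j = 𝟙 _
  restrict : ∀ (Y : T.Hyp) (M : 𝓜) (i : ℕ), T.Smooth Y → T.dim Y = 1 →
    (∀ f : pow T.L (i + 1) ⟶ M, f = 0) → (∀ f : pow T.L i ⟶ M, f = 0) →
      ∀ f : pow T.L (i + 1) ⟶ T.prim Y ⊗ M, f = 0

end JoinData

end Pool.Agent.Q28.HJ
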