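import Pool.Agent.Q28.HJ.FDefs
import Pool.Agent.Q28.HJ.Main

/-!
# Hypersurfaces given by sums of forms in few variables
-/

open CategoryTheory MonoidalCategory

universe v u w

namespace Pool.Agent.Q28.HJ

namespace JoinData

variable {𝓜 : Type u} [Category.{v} 𝓜] [Preadditive 𝓜] [MonoidalCategory 𝓜]
  {T : JoinData.{v, u, w} 𝓜} {B : Set T.Hyp}

/-- objects decomposed into twisted products -/
inductive Dec (T : JoinData.{v, u, w} 𝓜) (B : Set T.Hyp) : ℕ → 𝓜 → Prop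
  | prod {N : ℕ} {M : 𝓜} (s : ℕ) (h : T.ProdOf B N M) : Dec T B (N + 2 * s) (M ⊗ pow T.L s)
  | split {w : ℕ} {M A A' : 𝓜} (i₁ : M ⟶ A) (r₁ : A ⟶ M) (i₂ : M ⟶ A') (r₂ : A' ⟶ M)
      (h : i₁ ≫ r₁ + i₂ ≫ r₂ = 𝟙 M) (hA : Dec T B w A) (hA' : Dec T B w A') : Dec T B w M

lemma Dec.retract {w : ℕ} {M A : 𝓜} (h : Dec T B w A) (R : Retract M A) : Dec T B w M :=
  .split R.i R.r 0 0 (by rw [R.retract, Limits.comp_zero, add_zero]) h h

lemma Dec.iso {w : ℕ} {M A : 𝓜} (h : Dec T B w A) (e : M ≅ A) : Dec T B w M :=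
  h.retract (retIso e)

lemma Dec.cast {w w' : ℕ} {M : 𝓜} (h : Dec T B w M) (e : w = w') : Dec T B w' M := e ▸ h

variable [MonoidalPreadditive 𝓜]

lemma Dec.cons {w : ℕ} {M : 𝓜} (h : Dec T B w M) {X : T.Hyp} (hX : X ∈ B) :
    Dec T B (w + T.dim X) (T.prim X ⊗ M) := by
  induction h with
  | prod s h => exact (((Dec.prod s (.cons X hX h)).iso (α_ _ _ _).symm)).cast (by ring)
  | split i₁ r₁ i₂ r₂ h _ _ ih₁ ih₂ =>
    refine .split (T.prim X ◁ i₁) (T.prim X ◁ r₁) (T.prim X ◁ i₂) (T.prim X ◁ r₂) ?_ ih₁ ih₂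
    rw [← whiskerLeft_comp, ← whiskerLeft_comp, ← MonoidalPreadditive.whiskerLeft_add, h,
      whiskerLeft_id]

lemma Dec.twist {w : ℕ} {M : 𝓜} (h : Dec T B w M) : Dec T B (w + 2) (M ⊗ T.L) := by
  induction h with
  | prod s h => exact ((Dec.prod (s + 1) h).iso (α_ _ _ _)).cast (by ring)
  | split i₁ r₁ i₂ r₂ h _ _ ih₁ ih₂ =>
    refine .split (i₁ ▷ T.L) (r₁ ▷ T.L) (i₂ ▷ T.L) (r₂ ▷ T.L) ?_ ih₁ ih₂
    rw [← comp_whiskerRight, ← comp_whiskerRight, ← MonoidalPreadditive.add_whiskerRight, h,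
      id_whiskerRight]

lemma Dec.twists {w : ℕ} {M : 𝓜} (h : Dec T B w M) (s : ℕ) :
    Dec T B (w + 2 * s) (M ⊗ pow T.L s) := by
  induction s with
  | zero => exact h.iso (ρ_ _)
  | succ s ih => exact (ih.twist.iso (α_ _ _ _).symm).cast (by ring)

lemma Dec.prodLeft {w N : ℕ} {M P : 𝓜} (h : Dec T B w M) (hP : T.ProdOf B N P) :
    Dec T B (w + N) (P ⊗ M) := by
  induction hP with
  | nil => exact h.iso (λ_ _)
  | cons X hX _ ih => exact ((ih.cons hX).iso (α_ _ _ _)).cast (by ring)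

lemma Dec.tensor [BraidedCategory 𝓜] {w w' : ℕ} {M N : 𝓜} (h : Dec T B w M)
    (h' : Dec T B w' N) : Dec T B (w + w') (M ⊗ N) := by
  induction h with
  | prod s h =>
    exact ((((h'.twists s).prodLeft h).iso ((tensorLeft _).mapIso (β_ _ _))).iso
      (α_ _ _ _)).cast (by ring)
  | split i₁ r₁ i₂ r₂ h _ _ ih₁ ih₂ =>
    refine .split (i₁ ▷ N) (r₁ ▷ N) (i₂ ▷ N) (r₂ ▷ N) ?_ ih₁ ih₂
    rw [← comp_whiskerRight, ← comp_whiskerRight, ← MonoidalPreadditive.add_whiskerRight, h,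
      id_whiskerRight]

lemma full_pow (hT : T.JoinFacts) (s : ℕ) : ∀ {M N : 𝓜} (f : M ⊗ pow T.L s ⟶ N ⊗ pow T.L s),
    ∃ g : M ⟶ N, f = g ▷ pow T.L s := by
  induction s with
  | zero =>
    intro M N f
    have key : ∀ f' : M ⊗ 𝟙_ 𝓜 ⟶ N ⊗ 𝟙_ 𝓜, ∃ g : M ⟶ N, f' = g ▷ 𝟙_ 𝓜 := fun f' =>
      ⟨(ρ_ M).inv ≫ f' ≫ (ρ_ N).hom, by simp⟩
    exact key f
  | succ s ih =>
    intro M N f
    have key : ∀ f : M ⊗ (pow T.L s ⊗ T.L) ⟶ N ⊗ (pow T.L s ⊗ T.L),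
        ∃ g : M ⟶ N, f = g ▷ (pow T.L s ⊗ T.L) := by
      intro f
      obtain ⟨g, hg⟩ := hT.full ((α_ M (pow T.L s) T.L).hom ≫ f ≫ (α_ N (pow T.L s) T.L).inv)
      obtain ⟨g', hg'⟩ := ih g
      refine ⟨g', ?_⟩
      rw [whiskerRight_tensor, ← hg', ← hg]
      simp
    exact key f

lemma Dec.vanish (hT : T.JoinFacts) (hB : ∀ X ∈ B, T.Smooth X) (hv : T.ProductVanishing B)
    {w : ℕ} {M : 𝓜} (h : Dec T B w M) : ∀ i, 2 * i < w → ∀ f : pow T.L i ⟶ M, f = 0 := by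
  induction h with
  | @prod N M s h =>
    intro i hi f
    by_cases hs : i < s
    · exact hT.eff B hB N M h i s hs f
    · obtain ⟨j, rfl⟩ : ∃ j, i = j + s := ⟨i - s, by omega⟩
      obtain ⟨g, hg⟩ := full_pow hT s ((powAdd T.L j s).inv ≫ f)
      rw [hv N M h j (by omega) g, MonoidalPreadditive.zero_whiskerRight] at hg
      rw [← cancel_epi (powAdd T.L j s).inv, hg, Limits.comp_zero]
  | split i₁ r₁ i₂ r₂ h _ _ ih₁ ih₂ =>
    intro i hi f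
    have e : f = (f ≫ i₁) ≫ r₁ + (f ≫ i₂) ≫ r₂ := by
      rw [Category.assoc, Category.assoc, ← Preadditive.comp_add, h, Category.comp_id]
    rw [e, ih₁ i hi (f ≫ i₁), ih₂ i hi (f ≫ i₂), Limits.zero_comp, Limits.zero_comp, add_zero]

lemma mem_blocks {X : T.Hyp} (hX : X ∈ B) : X ∈ T.blocks B := Or.inl hX

lemma blocks_prop (hT : T.JoinFacts) {d : ℕ} (hB : ∀ X ∈ B, T.Smooth X ∧ T.deg X = d)
    {X : T.Hyp} (hX : X ∈ T.blocks B) : T.Smooth X ∧ T.deg X = d := by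
  rcases hX with hX | ⟨X₀, h₀, h⟩
  · exact hB X hX
  · obtain ⟨a, b, -⟩ := hT.cyc_prop h
    exact ⟨a, b.trans (hB X₀ h₀).2⟩

lemma dec_block {X : T.Hyp} (hX : X ∈ B) : Dec T B (T.dim X) (T.prim X) :=
  ((Dec.prod 0 (ProdOf.cons X hX .nil)).iso ((ρ_ (T.prim X)).symm ≪≫ (ρ_ _).symm)).cast (by omega)

section Main

variable [BraidedCategory 𝓜]

lemma dec_join (hT : T.JoinFacts) {X Y W X' Y' : T.Hyp} (h : T.Join X Y W) (hX : T.Cyc X X')
    (hY : T.Cyc Y Y') (a : Dec T B (T.dim X) (T.prim X)) (b : Dec T B (T.dim Y) (T.prim Y))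
    (a' : Dec T B (T.dim X') (T.prim X')) (b' : Dec T B (T.dim Y') (T.prim Y')) :
    Dec T B (T.dim W) (T.prim W) := by
  obtain ⟨i₁, r₁, i₂, r₂, e⟩ := hT.join_split h hX hY
  have h1 := (hT.join_prop h).2.2
  have h2 := (hT.cyc_prop hX).2.2
  have h3 := (hT.cyc_prop hY).2.2
  exact .split i₁ r₁ i₂ r₂ e ((a'.tensor b').cast (by omega)) ((a.tensor b).twist.cast (by omega))

lemma dec_sum (hT : T.JoinFacts) {d : ℕ} (hd : 2 ≤ d) (hB : ∀ X ∈ B, T.Smooth X ∧ T.deg X = d)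
    (hP : ∀ P, T.Diag P → T.deg P = d → P ∈ B) {W : T.Hyp} (h : T.SumOf (T.blocks B) W) :
    (T.Smooth W ∧ T.deg W = d) ∧ Dec T (T.blocks B) (T.dim W) (T.prim W) ∧
      ∀ W', T.Cyc W W' → Dec T (T.blocks B) (T.dim W') (T.prim W') := by
  -- the double cyclic coverings
  have key : ∀ {X X' X'' : T.Hyp}, T.Smooth X ∧ T.deg X = d →
      Dec T (T.blocks B) (T.dim X) (T.prim X) → T.Cyc X X' →
      Dec T (T.blocks B) (T.dim X') (T.prim X') → T.Cyc X' X'' →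
      Dec T (T.blocks B) (T.dim X'') (T.prim X'') := by
    intro X X' X'' hX a h1 a' h2
    obtain ⟨P, p1, p2, p3⟩ := hT.cyc_cyc h1 h2
    have hPB := hP P p1 (p2.trans hX.2)
    obtain ⟨P', hP'⟩ := hT.cyc_exists P (hB P hPB).1 (by rw [(hB P hPB).2]; exact hd)
    exact dec_join hT p3 h1 hP' a (dec_block (mem_blocks hPB)) a' (dec_block (Or.inr ⟨P, hPB, hP'⟩))
  induction h with
  | @base X hX =>
    refine ⟨blocks_prop hT hB hX, dec_block hX, fun W' hW' => ?_⟩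
    rcases hX with hX | ⟨X₀, h₀, h⟩
    · exact dec_block (Or.inr ⟨X, hX, hW'⟩)
    · exact key (hB X₀ h₀) (dec_block (mem_blocks h₀)) h (dec_block (Or.inr ⟨X₀, h₀, h⟩)) hW'
  | @join X Y W _ _ h ih₁ ih₂ =>
    obtain ⟨s₁, a₁, c₁⟩ := ih₁
    obtain ⟨s₂, a₂, c₂⟩ := ih₂
    obtain ⟨j1, j2, -⟩ := hT.join_prop h
    obtain ⟨X', hX'⟩ := hT.cyc_exists X s₁.1 (by rw [s₁.2]; exact hd)
    refine ⟨⟨j1, j2.trans s₁.2⟩, ?_, fun W' hW' => ?_⟩
    · obtain ⟨Y', hY'⟩ := hT.cyc_exists Y s₂.1 (by rw [s₂.2]; exact hd)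
      exact dec_join hT h hX' hY' a₁ a₂ (c₁ X' hX') (c₂ Y' hY')
    · obtain ⟨Y', hY', hj⟩ := hT.join_cyc h hW'
      obtain ⟨k1, k2, -⟩ := hT.cyc_prop hY'
      obtain ⟨Y'', hY''⟩ := hT.cyc_exists Y' k1 (by rw [k2, s₂.2]; exact hd)
      exact dec_join hT hj hX' hY'' a₁ (c₂ Y' hY') (c₁ X' hX')
        (key s₂ a₂ hY' (c₂ Y' hY') hY'')

/-- products of blocks are dominated by sums of blocks -/
lemma prodOf_retract (hT : T.JoinFacts) {d : ℕ} (hd : 2 ≤ d)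
    (hB : ∀ X ∈ B, T.Smooth X ∧ T.deg X = d) (hP : ∀ P, T.Diag P → T.deg P = d → P ∈ B) {N : ℕ}
    {M : 𝓜} (h : T.ProdOf (T.blocks B) N M) : ∃ (W : T.Hyp) (s : ℕ), T.SumOf (T.blocks B) W ∧
      T.Smooth W ∧ T.deg W = d ∧ T.dim W = N + 2 * s ∧
        Nonempty (Retract (M ⊗ pow T.L s) (T.prim W)) := by
  induction h with
  | nil =>
    obtain ⟨P, h1, h2⟩ := hT.diag_exists d hd
    obtain ⟨h3, h4, ⟨R⟩⟩ := hT.diag_prop h1
    exact ⟨P, 0, .base (mem_blocks (hP P h1 h2)), h3, h2, by omega, ⟨(retIso (ρ_ _)).trans R⟩⟩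
  | @cons N M X hX _ ih =>
    obtain ⟨W, s, a1, a2, a3, a4, ⟨R⟩⟩ := ih
    obtain ⟨b1, b2⟩ := blocks_prop hT hB hX
    obtain ⟨W', h⟩ := hT.join_exists X W b1 a2 (b2.trans a3.symm)
    obtain ⟨c1, c2, c3⟩ := hT.join_prop h
    obtain ⟨R'⟩ := hT.join_retract h
    refine ⟨W', s + 1, .join (.base hX) a1 h, c1, c2.trans b2, by omega, ⟨?_⟩⟩
    have e : (T.prim X ⊗ M) ⊗ pow T.L (s + 1) ≅ (T.prim X ⊗ (M ⊗ pow T.L s)) ⊗ T.L :=
      (α_ _ _ _).symm ≪≫ (tensorRight T.L).mapIso (α_ _ _ _)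
    exact ((retIso e).trans (retRight (retLeft R _) T.L)).trans R'

lemma vanish_of_sum (hT : T.JoinFacts) {d : ℕ} (hd : 2 ≤ d)
    (hB : ∀ X ∈ B, T.Smooth X ∧ T.deg X = d) (hP : ∀ P, T.Diag P → T.deg P = d → P ∈ B)
    {N i : ℕ} {M : 𝓜} (h : T.ProdOf (T.blocks B) N M) (hi : 2 * i < N)
    (hv : ∀ W, T.SumOf (T.blocks B) W → ∀ j, T.dim W + 2 * i = N + 2 * j → 2 * j < T.dim W →
      T.Hartshorne W j) (f : pow T.L i ⟶ M) : f = 0 := by
  obtain ⟨W, s, h1, h2, -, h3, ⟨R⟩⟩ := prodOf_retract hT hd hB hP h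
  refine untwist hT.faithful i s M (zero_of_retract R ?_) f
  exact (hT.link W (i + s) h2 (by omega)).1 (hv W h1 (i + s) (by omega) (by omega))

/-- the equivalence for arbitrary blocks -/
theorem few_main (hT : T.JoinFacts) {d : ℕ} (hd : 2 ≤ d)
    (hB : ∀ X ∈ B, T.Smooth X ∧ T.deg X = d) (hP : ∀ P, T.Diag P → T.deg P = d → P ∈ B) :
    (∀ W, T.SumOf (T.blocks B) W → ∀ i, 2 * i < T.dim W → T.Hartshorne W i) ↔
      T.ProductVanishing (T.blocks B) := by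
  constructor
  · intro h N M hM i hi f
    exact vanish_of_sum hT hd hB hP hM hi (fun W hW j _ hj => h W hW j hj) f
  · intro h W hW i hi
    obtain ⟨s, a, -⟩ := dec_sum hT hd hB hP hW
    refine (hT.link W i s.1 hi).2 ?_
    exact a.vanish hT (fun X hX => (blocks_prop hT hB hX).1) h i hi

omit [BraidedCategory 𝓜] [MonoidalPreadditive 𝓜] in
lemma ProdOf.mono {B' : Set T.Hyp} (hBB : B ⊆ B') {N : ℕ} {M : 𝓜} (h : T.ProdOf B N M) :
    T.ProdOf B' N M := by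
  induction h with
  | nil => exact .nil
  | cons X hX _ ih => exact .cons X (hBB hX) ih

omit [BraidedCategory 𝓜] [MonoidalPreadditive 𝓜] in
/-- products of curves: the middle case suffices -/
lemma curves_vanish (hT : T.JoinFacts) {𝒞 : Set T.Hyp} (h𝒞 : ∀ X ∈ 𝒞, T.Smooth X ∧ T.dim X = 1)
    (h : ∀ (i : ℕ) (M : 𝓜), T.ProdOf 𝒞 (2 * i + 1) M → ∀ f : pow T.L i ⟶ M, f = 0) (i : ℕ) :
    ∀ (N : ℕ) (M : 𝓜), T.ProdOf 𝒞 N M → 2 * i < N → ∀ f : pow T.L i ⟶ M, f = 0 := by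
  induction i with
  | zero => exact fun N M hM hN f => hT.zero 𝒞 (fun X hX => (h𝒞 X hX).1) N M hM (by omega) f
  | succ i ih =>
    intro N M hM
    induction hM with
    | nil => intro hN; omega
    | @cons N M X hX hM ih' =>
      intro hN f
      obtain ⟨s, hd⟩ := h𝒞 X hX
      by_cases h2 : 2 * (i + 1) < N
      · exact hT.restrict X M i s hd (ih' h2) (ih N M hM (by omega)) f
      · refine h (i + 1) _ ?_ f
        have e : N + T.dim X = 2 * (i + 1) + 1 := by omega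
        exact e ▸ ProdOf.cons X hX hM

/-- products of curves and finite sets -/
lemma curves_points (hT : T.JoinFacts) {B' : Set T.Hyp} (hs : ∀ X ∈ B', T.Smooth X)
    (hd : ∀ X ∈ B', T.dim X = 0 ∨ T.dim X = 1)
    (h : ∀ (i : ℕ) (M : 𝓜), T.ProdOf {X ∈ B' | T.dim X = 1} (2 * i + 1) M →
      ∀ f : pow T.L i ⟶ M, f = 0) {N : ℕ} {M : 𝓜} (hM : T.ProdOf B' N M) :
    ∀ (c : ℕ) (Q : 𝓜), T.ProdOf {X ∈ B' | T.dim X = 1} c Q → ∀ i, 2 * i < N + c →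
      ∀ f : pow T.L i ⟶ M ⊗ Q, f = 0 := by
  induction hM with
  | nil =>
    intro c Q hQ i hi
    refine zero_of_retract (retIso (λ_ Q)) ?_
    exact curves_vanish hT (fun X hX => ⟨hs X hX.1, hX.2⟩) h i c Q hQ (by omega)
  | @cons N M X hX _ ih =>
    intro c Q hQ i hi
    rcases hd X hX with h0 | h1
    · intro f
      obtain ⟨n, a, b, e⟩ := hT.points X (hs X hX) h0
      have e1 : (𝟙 ((T.prim X ⊗ M) ⊗ Q)) = ∑ j, (a j ▷ M) ▷ Q ≫ (b j ▷ M) ▷ Q := by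
        simp_rw [← comp_whiskerRight]
        rw [← sum_whiskerRight, ← sum_whiskerRight, e,
          id_whiskerRight, id_whiskerRight]
      have e2 : ∀ j, f ≫ (a j ▷ M) ▷ Q = 0 := fun j =>
        zero_of_retract (retIso ((tensorRight Q).mapIso (λ_ M))) (ih c Q hQ i (by omega)) _
      rw [← Category.comp_id f, e1, Preadditive.comp_sum]
      refine Finset.sum_eq_zero fun j _ => ?_
      rw [← Category.assoc, e2 j, Limits.zero_comp]
    · have e : (T.prim X ⊗ M) ⊗ Q ≅ M ⊗ (T.prim X ⊗ Q) :=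
        (tensorRight Q).mapIso (β_ _ _) ≪≫ α_ _ _ _
      refine zero_of_retract (retIso e) ?_
      exact ih (c + T.dim X) _ (.cons X ⟨hX, h1⟩ hQ) i (by omega)

/-- the case of binary forms -/
theorem few_two (hT : T.JoinFacts) {d : ℕ} (hd : 2 ≤ d)
    (hB : ∀ X ∈ B, T.Smooth X ∧ T.deg X = d) (hP : ∀ P, T.Diag P → T.deg P = d → P ∈ B)
    (h0 : ∀ X ∈ B, T.dim X = 0) :
    [∀ W, T.SumOf (T.blocks B) W → ∀ i, 2 * i < T.dim W → T.Hartshorne W i,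
      ∀ W, T.SumOf (T.blocks B) W → ∀ i, 2 * i + 1 = T.dim W → T.Hartshorne W i,
      T.ProductVanishing (T.blocks B),
      ∀ (i : ℕ) (M : 𝓜), T.ProdOf {X ∈ T.blocks B | T.dim X = 1} (2 * i + 1) M →
        ∀ f : pow T.L i ⟶ M, f = 0].TFAE := by
  tfae_have 1 → 2 := fun h W hW i hi => h W hW i (by omega)
  tfae_have 2 → 4 := fun h i M hM f =>
    vanish_of_sum hT hd hB hP (hM.mono (fun X hX => hX.1)) (by omega)
      (fun W hW j e _ => h W hW j (by omega)) f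
  tfae_have 4 → 3 := fun h N M hM i hi => by
    refine zero_of_retract (retIso (ρ_ M).symm) ?_
    refine curves_points hT (fun X hX => (blocks_prop hT hB hX).1) ?_ h hM 0 _ .nil i (by omega)
    rintro X (hX | ⟨X₀, h₀, hc⟩)
    · exact Or.inl (h0 X hX)
    · exact Or.inr (by rw [(hT.cyc_prop hc).2.2, h0 X₀ h₀])
  tfae_have 3 ↔ 1 := (few_main hT hd hB hP).symm
  tfae_finish

end Main

end JoinData

end Pool.Agent.Q28.HJ
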