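import Pool.Agent.Q28.HJ.FDefs

/-!
# Hypersurfaces given by sums of forms in few variables: motives generated by simple ones
-/

open CategoryTheory MonoidalCategory

universe v u w

namespace Pool.Agent.Q28.HJ

variable {𝓜 : Type u} [Category.{v} 𝓜] [Preadditive 𝓜] [MonoidalCategory 𝓜]

/-- The motives obtained from those with the property `P` and from the Lefschetz motive `L` by tensor
products, direct sums, direct summands (`M` is a direct summand of `A ⊕ A'`) and negative Tate
twists. -/
inductive GenBy (L : 𝓜) (P : 𝓜 → Prop) : 𝓜 → Prop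
  | of {M : 𝓜} (h : P M) : GenBy L P M
  | unit : GenBy L P (𝟙_ 𝓜)
  | lef : GenBy L P L
  | tensor {M N : 𝓜} (hM : GenBy L P M) (hN : GenBy L P N) : GenBy L P (M ⊗ N)
  | split {M A A' : 𝓜} (i₁ : M ⟶ A) (r₁ : A ⟶ M) (i₂ : M ⟶ A') (r₂ : A' ⟶ M)
      (h : i₁ ≫ r₁ + i₂ ≫ r₂ = 𝟙 M) (hA : GenBy L P A) (hA' : GenBy L P A') : GenBy L P M
  | untwist {M : 𝓜} (h : GenBy L P (M ⊗ L)) : GenBy L P M

namespace JoinData

variable (T : JoinData.{v, u, w} 𝓜)

/-- The smooth hypersurfaces of degree `d` and dimension at most `e`, that is, the forms of degree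
`d` in at most `e + 2` variables. -/
def forms (d e : ℕ) : Set T.Hyp := {X | T.Smooth X ∧ T.deg X = d ∧ T.dim X ≤ e}

/-- Elementary facts on hypersurfaces given by sums of forms (Shioda, Katsura). Here `Join X Y W`:
`f(x) = 0`, `g(y) = 0`, `f(x) + g(y) = 0`; `Cyc X X'`: `f(x) = 0`, `f(x) = u ^ d`;
`Diag P`: `u ^ d + v ^ d = 0`.
* `join_split`: for `W : f(x) + g(y) = 0`, `X' : f(x) = u ^ d`, `Y' : g(y) = v ^ d` the motive `M_W`
  is isomorphic to `(M_{X'} ⊗ M_{Y'})^{μ_d} ⊕ M_X ⊗ M_Y ⊗ L`.
* `join_cyc`, `cyc_cyc`: `(f(x) + g(y)) - u ^ d = f(x) + (g(y) - u ^ d)` and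
  `(f(x) - u ^ d) - v ^ d = f(x) + (- u ^ d - v ^ d)`. -/
structure CoreFacts : Prop where
  join_prop : ∀ {X Y W : T.Hyp}, T.Join X Y W → T.Smooth W ∧ T.deg W = T.deg X ∧
    T.dim W = T.dim X + T.dim Y + 2
  join_split : ∀ {X Y W X' Y' : T.Hyp}, T.Join X Y W → T.Cyc X X' → T.Cyc Y Y' →
    ∃ (i₁ : T.prim W ⟶ T.prim X' ⊗ T.prim Y') (r₁ : T.prim X' ⊗ T.prim Y' ⟶ T.prim W)
      (i₂ : T.prim W ⟶ (T.prim X ⊗ T.prim Y) ⊗ T.L) (r₂ : (T.prim X ⊗ T.prim Y) ⊗ T.L ⟶ T.prim W),
      i₁ ≫ r₁ + i₂ ≫ r₂ = 𝟙 _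
  cyc_exists : ∀ X : T.Hyp, T.Smooth X → 2 ≤ T.deg X → ∃ X', T.Cyc X X'
  cyc_prop : ∀ {X X' : T.Hyp}, T.Cyc X X' → T.Smooth X' ∧ T.deg X' = T.deg X ∧
    T.dim X' = T.dim X + 1
  join_cyc : ∀ {X Y W W' : T.Hyp}, T.Join X Y W → T.Cyc W W' →
    ∃ Y', T.Cyc Y Y' ∧ T.Join X Y' W'
  cyc_cyc : ∀ {X X' X'' : T.Hyp}, T.Cyc X X' → T.Cyc X' X'' →
    ∃ P, T.Diag P ∧ T.deg P = T.deg X ∧ T.Join X P X''
  diag_prop : ∀ {P : T.Hyp}, T.Diag P → T.Smooth P ∧ T.dim P = 0

/-- `W` is a sum, in disjoint sets of variables, of cubic forms in at most three variables, or of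
binary quartic forms, or of such forms minus the third (fourth) power of one further variable. The
number of summands, and so the dimension of `W`, is arbitrary. -/
def IsEllipticSum (W : T.Hyp) : Prop :=
  T.SumOf (T.blocks (T.forms 3 1)) W ∨ T.SumOf (T.blocks (T.forms 4 0)) W

/-- `W` is a sum, in disjoint sets of variables, of binary forms of degree `d ≥ 2`, or of cubic forms
in at most four variables, or of such forms minus `u ^ d`, `u` a further variable. The number of
summands, and so the dimension of `W`, is arbitrary. -/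
def IsAbelianSum (W : T.Hyp) : Prop :=
  (∃ d, 2 ≤ d ∧ T.SumOf (T.blocks (T.forms d 0)) W) ∨ T.SumOf (T.blocks (T.forms 3 2)) W

/-- Facts on the motives of curves and surfaces; `E M` means `M = h^1` of an elliptic curve.
`points`: the motive of a finite set is a sum of copies of the unit motive; `cubic`: plane cubic
curves are elliptic curves, cubic surfaces are rational; `quartic`: the Jacobian of
`C : f(x, y) = u ^ 4` is isogenous to a product of elliptic curves (one of them is
`f(x, y) = w ^ 2`; the others have complex multiplication by `i`). The base field is algebraically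
closed of characteristic different from two and three. -/
structure EllipticFacts (E : 𝓜 → Prop) : Prop where
  points : ∀ X : T.Hyp, T.Smooth X → T.dim X = 0 → GenBy T.L E (T.prim X)
  cubic : ∀ X : T.Hyp, T.Smooth X → T.deg X = 3 → T.dim X ≤ 2 → GenBy T.L E (T.prim X)
  quartic : ∀ X X' : T.Hyp, T.Smooth X → T.deg X = 4 → T.dim X = 0 → T.Cyc X X' →
    GenBy T.L E (T.prim X')

/-- Facts on the motives of curves, surfaces and threefolds; `A M` means that `M` is the motive of an
abelian variety. `curves`: the motives of curves are generated by those of their Jacobians (points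
are allowed); `cubic`: cubic surfaces are rational, and the motive of a cubic threefold is given by
its intermediate Jacobian. The base field is algebraically closed (of characteristic zero for
threefolds). -/
structure AbelianFacts (A : 𝓜 → Prop) : Prop where
  curves : ∀ X : T.Hyp, T.Smooth X → T.dim X ≤ 1 → GenBy T.L A (T.prim X)
  cubic : ∀ X : T.Hyp, T.Smooth X → T.deg X = 3 → T.dim X ≤ 3 → GenBy T.L A (T.prim X)

end JoinData

end Pool.Agent.Q28.HJ
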