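import Pool.Agent.Q28.HJ.CDefs
import Pool.Agent.Q28.HJ.Main

/-!
# Hodge classes on sums of general binary forms
-/

open CategoryTheory MonoidalCategory

universe v u w v' u'

namespace Pool.Agent.Q28.HJ

namespace HodgeData

variable {𝓜 : Type u} [Category.{v} 𝓜] [Preadditive 𝓜] [MonoidalCategory 𝓜]
  {𝓗 : Type u'} [Category.{v'} 𝓗] [Preadditive 𝓗] {T : HodgeData.{v, u, w, v', u'} 𝓜 𝓗}

omit [Preadditive 𝓜] [Preadditive 𝓗] in
lemma hc_retract {M N : 𝓜} (R : Retract M N) (h : T.HC N) : T.HC M := by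
  intro i φ
  obtain ⟨f, hf⟩ := h i (φ ≫ T.H.map R.i)
  refine ⟨f ≫ R.r, ?_⟩
  rw [T.H.map_comp, hf, Category.assoc, ← T.H.map_comp, R.retract, T.H.map_id, Category.comp_id]

variable [MonoidalPreadditive 𝓜] [T.H.Additive]

lemma hc_points (hT : T.Facts) {Y : T.Hyp} (hY : T.Smooth Y) (h0 : T.dim Y = 0) {M : 𝓜}
    (h : T.HC M) : T.HC (M ⊗ T.prim Y) := by
  intro i φ
  obtain ⟨n, a, b, e⟩ := hT.points Y hY h0
  have e1 : 𝟙 (M ⊗ T.prim Y) = ∑ j, (M ◁ a j ≫ (ρ_ M).hom) ≫ ((ρ_ M).inv ≫ M ◁ b j) := by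
    have : ∀ j, (M ◁ a j ≫ (ρ_ M).hom) ≫ ((ρ_ M).inv ≫ M ◁ b j) = M ◁ (a j ≫ b j) := by
      intro j; simp
    simp_rw [this]
    rw [← whiskerLeft_sum, e, whiskerLeft_id]
  choose f hf using fun j => h i (φ ≫ T.H.map (M ◁ a j ≫ (ρ_ M).hom))
  refine ⟨∑ j, f j ≫ ((ρ_ M).inv ≫ M ◁ b j), ?_⟩
  have e2 : φ = φ ≫ T.H.map (𝟙 (M ⊗ T.prim Y)) := by rw [T.H.map_id, Category.comp_id]
  rw [e2, e1, Functor.map_sum, Functor.map_sum, Preadditive.comp_sum]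
  refine Finset.sum_congr rfl fun j _ => ?_
  rw [T.H.map_comp (f j), hf j, T.H.map_comp (M ◁ a j ≫ (ρ_ M).hom), Category.assoc]

/-- adding a general binary form does not change the Hodge conjecture -/
lemma hc_join (hT : T.Facts) {U Y W : T.Hyp} (hU : T.Smooth U) (hd : 2 ≤ T.deg U)
    (hY : T.Smooth Y) (h0 : T.dim Y = 0) (hg : T.GeneralFor U Y) (hj : T.Join U Y W) :
    T.HC (T.prim W) ↔ T.HC (T.prim U) := by
  obtain ⟨p1, p2, p3, p4⟩ := hT.join_prop hj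
  constructor
  · intro h
    obtain ⟨R⟩ := hT.join_retract hj
    have h1 : T.HC (T.prim U ⊗ T.prim Y) := (hT.twist _).1 (hc_retract R h)
    obtain ⟨Q⟩ := hT.unit Y hY h0 (by omega)
    exact hc_retract ((retIso (ρ_ _).symm).trans (retLeft Q _)) h1
  · intro h i φ
    obtain ⟨U', hU'⟩ := hT.cyc_exists U hU hd
    obtain ⟨C, hC⟩ := hT.cyc_exists Y hY (by omega)
    obtain ⟨i₁, r₁, i₂, r₂, e⟩ := hT.join_split hj hU' hC
    have h2 : T.HC ((T.prim U ⊗ T.prim Y) ⊗ T.L) := (hT.twist _).2 (hc_points hT hY h0 h)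
    obtain ⟨f, hf⟩ := h2 i (φ ≫ T.H.map i₂)
    refine ⟨f ≫ r₂, ?_⟩
    have e2 : φ ≫ T.H.map i₁ = 0 := hg U' C hU' hC i _
    have e1 : (φ ≫ T.H.map i₁) ≫ T.H.map r₁ + (φ ≫ T.H.map i₂) ≫ T.H.map r₂ = φ := by
      rw [Category.assoc, Category.assoc, ← T.H.map_comp, ← T.H.map_comp, ← Preadditive.comp_add,
        ← Functor.map_add, e, T.H.map_id, Category.comp_id]
    rw [e2, Limits.zero_comp, zero_add] at e1
    rw [T.H.map_comp, hf, e1]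

lemma hc_tower (hT : T.Facts) {V W : T.Hyp} (hV : T.Smooth V) (hd : 2 ≤ T.deg V)
    (h : T.Tower V W) : (T.Smooth W ∧ T.deg W = T.deg V) ∧ (T.HC (T.prim W) ↔ T.HC (T.prim V)) := by
  induction h with
  | base => exact ⟨⟨hV, rfl⟩, Iff.rfl⟩
  | @step U Y W h hY h0 hg hj ih =>
    obtain ⟨⟨s, e⟩, ih⟩ := ih
    obtain ⟨p1, p2, -, -⟩ := hT.join_prop hj
    exact ⟨⟨p1, p2.trans e⟩, (hc_join hT s (by omega) hY h0 hg hj).trans ih⟩

/-- main theorem -/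
theorem final (hT : T.Facts) (V : T.Hyp) (hV : T.Smooth V) (hd : 5 ≤ T.deg V)
    (hd6 : T.deg V ≠ 6) :
    (∀ W, T.Tower V W →
      T.VeryGeneral (T.deg V) (fun Y => T.Smooth Y ∧ T.dim Y = 0 ∧ T.deg Y = T.deg V ∧
        T.GeneralFor W Y)) ∧
    (∀ W, T.Tower V W → ((∀ C : T.Adm W, T.NCHodge C) ↔ T.NCHodge (T.perf V))) ∧
    ((T.dim V ≤ 2 ∨ T.dim V = 4 ∧ T.deg V = 5) →
      ∀ W, T.Tower V W → ∀ C : T.Adm W, T.NCHodge C) := by
  have key : ∀ W, T.Tower V W → ((∀ C : T.Adm W, T.NCHodge C) ↔ T.NCHodge (T.perf V)) := by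
    intro W hW
    obtain ⟨⟨s, -⟩, h⟩ := hc_tower hT hV (by omega) hW
    rw [hT.nc_perf V hV, ← h, ← hT.nc_perf W s]
    exact ⟨fun h => h _, hT.nc_adm W s⟩
  refine ⟨fun W hW => ?_, key, fun h W hW => ?_⟩
  · obtain ⟨⟨s, e⟩, -⟩ := hc_tower hT hV (by omega) hW
    have := hT.general W s (by omega) (by omega)
    rwa [e] at this
  · rw [key W hW, hT.nc_perf V hV]
    rcases h with h | ⟨h, h'⟩
    · exact hT.lefschetz V hV h
    · exact hT.quintic V hV h h'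

end HodgeData

end Pool.Agent.Q28.HJ
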