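import Pool.Agent.Q28.HJ.Defs

/-!
# Homologically trivial cycles on hypersurfaces: definitions
-/

open CategoryTheory MonoidalCategory

universe v u w

namespace Pool.Agent.Q28.HJ

/-- The data `HypData` (Chow motives, and Chow groups of complex hypersurfaces), together with the
homologically trivial morphisms and cycles. -/
structure NullData (𝓜 : Type u) [Category.{v} 𝓜] extends HypData.{v, u, w} 𝓜 where
  /-- the morphism of motives acts as zero on cohomology -/
  null : ∀ {M N : 𝓜}, (M ⟶ N) → Prop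
  /-- the homologically trivial cycles of codimension `i` on the smooth hypersurface `X` -/
  Null : ∀ (X : Hyp) (i : ℕ), Submodule ℚ (A X i)

namespace NullData

variable {𝓜 : Type u} [Category.{v} 𝓜] (T : NullData.{v, u, w} 𝓜)

/-- The homologically trivial cycles of codimension `dim X / 2` on `X` are rationally equivalent to
zero (with rational coefficients). -/
def MiddleInjective (X : T.Hyp) : Prop := ∀ i, 2 * i = T.dim X → ∀ z ∈ T.Null X i, z = 0

variable [Preadditive 𝓜] [MonoidalCategory 𝓜]

/-- Known facts on hypersurfaces: those of `HypData.Facts`, and the following.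
* `null_comp`, `comp_null`, `whisker`: homologically trivial morphisms form a tensor ideal.
* `link₀`: for `X` smooth of dimension `2 i`, the homologically trivial cycles of codimension `i` on
  `X` are the homologically trivial elements of `A^i(M_X) = Hom(L^i, M_X)`.
* `lefschetz`: `H^(2i)(X)` is spanned by the class of `h^i` if `X` is smooth and `2 i < dim X`.
* `res_null`: the restriction of a homologically trivial cycle is homologically trivial.
* `selfdual`: Poincare duality, `Hom(M_W, N) = Hom(L^n, M_W ⊗ N)` for a smooth `W` of dimension `n`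
  and every motive `N`, compatible with cohomology.
* `fund₁`: a smooth hypersurface of dimension at least one is irreducible.
* `points`: the unit motive is a direct summand of the primitive motive of a set of two points. -/
structure Facts : Prop where
  base : T.toHypData.Facts
  null_comp : ∀ {M N P : 𝓜} (f : M ⟶ N) (g : N ⟶ P), T.null f → T.null (f ≫ g)
  comp_null : ∀ {M N P : 𝓜} (f : M ⟶ N) (g : N ⟶ P), T.null g → T.null (f ≫ g)
  whisker : ∀ {M N : 𝓜} (f : M ⟶ N) (P : 𝓜), T.null f → T.null (f ▷ P)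
  link₀ : ∀ X : T.Hyp, T.Smooth X → ∀ i, 2 * i = T.dim X →
    ((∀ z ∈ T.Null X i, z = 0) ↔ ∀ f : pow T.L i ⟶ T.prim X, T.null f → f = 0)
  lefschetz : ∀ X : T.Hyp, T.Smooth X → ∀ i, 2 * i < T.dim X → ∀ z : T.A X i,
    ∃ c : ℚ, z - c • T.h X i ∈ T.Null X i
  res_null : ∀ {X : T.Hyp} (s : T.Sec X) (i : ℕ) (z : T.A X i), T.Smooth X → T.Smooth (T.sec s) →
    z ∈ T.Null X i → T.res s i z ∈ T.Null (T.sec s) i
  selfdual : ∀ (W : T.Hyp) (N : 𝓜), T.Smooth W →
    (∀ f : pow T.L (T.dim W) ⟶ T.prim W ⊗ N, T.null f → f = 0) →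
      ∀ g : T.prim W ⟶ N, T.null g → g = 0
  fund₁ : ∀ X : T.Hyp, T.Smooth X → 1 ≤ T.dim X → T.Hartshorne X 0
  points : ∃ Y : T.Hyp, T.Smooth Y ∧ T.dim Y = 0 ∧ Nonempty (Retract (𝟙_ 𝓜) (T.prim Y))

end NullData

/-- The set `S` of pairs `(n, d)` contains, for all `N, D ≥ 1`, a pair `(n, d)` with `n ≥ N` even
and `d ≥ 1` divisible by `D`. -/
def EvenCofinal (S : Set (ℕ × ℕ)) : Prop :=
  ∀ N D : ℕ, 0 < D → ∃ p ∈ S, Even p.1 ∧ N ≤ p.1 ∧ D ∣ p.2 ∧ 0 < p.2

end Pool.Agent.Q28.HJ
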