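import Pool.Agent.Q28.HJ.NDefs
import Pool.Agent.Q28.HJ.Main

/-!
# Homologically trivial cycles on hypersurfaces
-/

open CategoryTheory MonoidalCategory

universe v u w

namespace Pool.Agent.Q28.HJ

namespace NullData

variable {𝓜 : Type u} [Category.{v} 𝓜] [Preadditive 𝓜] [MonoidalCategory 𝓜]
  {T : NullData.{v, u, w} 𝓜}

lemma pencil_step (hT : T.Facts) {X : T.Hyp} (hX : 3 ≤ T.dim X) (i : ℕ) (z : T.A X (i + 1)) (c : ℚ)
    (hc : ∀ s : T.Sec X, T.Smooth (T.sec s) → T.res s (i + 1) z = c • T.h (T.sec s) (i + 1))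
    (hs : ∀ s : T.Sec X, T.Hartshorne (T.sec s) i) : ∃ c' : ℚ, z = c' • T.h X (i + 1) := by
  obtain ⟨P, hP⟩ := hT.base.pencil X hX
  have hz := hP i (z - c • T.h X (i + 1)) (fun s _ hss => by
    rw [map_sub, map_smul, hT.base.res_h, hc s hss, sub_self])
  have hz2 : z - c • T.h X (i + 1) ∈ Submodule.span ℚ {T.h X (i + 1)} := by
    refine (Submodule.span_le.2 ?_) hz
    rintro g ⟨s, -, w, rfl⟩
    obtain ⟨c', rfl⟩ := hs s w
    rw [map_smul, hT.base.push_h]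
    exact Submodule.smul_mem _ _ (Submodule.mem_span_singleton_self _)
  obtain ⟨c', hc'⟩ := Submodule.mem_span_singleton.1 hz2
  exact ⟨c + c', by rw [add_smul, hc']; abel⟩

/-- the constants of the restrictions to smooth sections agree -/
lemma res_const (hT : T.Facts) {X : T.Hyp} (i : ℕ) (hi : i + 2 ≤ T.dim X) (z : T.A X (i + 1))
    (hres : ∀ s : T.Sec X, T.Smooth (T.sec s) → ∃ c : ℚ,
      T.res s (i + 1) z = c • T.h (T.sec s) (i + 1)) :
    ∃ c : ℚ, ∀ s : T.Sec X, T.Smooth (T.sec s) →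
      T.res s (i + 1) z = c • T.h (T.sec s) (i + 1) := by
  by_cases hex : ∃ s : T.Sec X, T.Smooth (T.sec s)
  · obtain ⟨s₀, hs₀⟩ := hex
    obtain ⟨c, hc⟩ := hres s₀ hs₀
    refine ⟨c, fun s hss => ?_⟩
    obtain ⟨c', hc'⟩ := hres s hss
    have e1 := hT.base.push_res s₀ (i + 1) z
    have e2 := hT.base.push_res s (i + 1) z
    rw [hc, map_smul, hT.base.push_h] at e1
    rw [hc', map_smul, hT.base.push_h] at e2
    have e3 : (c' - c) • T.h X (i + 1 + 1) = 0 := by rw [sub_smul, e2, e1, sub_self]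
    rcases smul_eq_zero.1 e3 with e4 | e4
    · rw [hc', sub_eq_zero.1 e4]
    · exact absurd e4 (hT.base.h_ne X _ (by omega))
  · exact ⟨0, fun s hss => absurd ⟨s, hss⟩ hex⟩

/-- injectivity in the middle codimension gives Hartshorne's conjecture -/
lemma hartshorne_of_middle (hT : T.Facts) (h : ∀ X : T.Hyp, T.Smooth X → T.MiddleInjective X)
    (m : ℕ) : (∀ X : T.Hyp, T.Smooth X → T.dim X = m → ∀ i, 2 * i + 1 = m → T.Hartshorne X i) ∧
      ∀ X : T.Hyp, T.dim X = m → ∀ i, 2 * i + 2 ≤ m → T.Hartshorne X i := by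
  induction m with
  | zero => exact ⟨fun X _ _ i hi => by omega, fun X _ i hi => by omega⟩
  | succ m ih =>
    obtain ⟨ihA, ihB⟩ := ih
    constructor
    · intro X hX hd i hi
      obtain _ | i := i
      · exact hT.fund₁ X hX (by omega)
      intro z
      obtain ⟨c, hc⟩ := hT.lefschetz X hX (i + 1) (by omega) z
      refine pencil_step hT (by omega) i z c (fun s hs => ?_) (fun s => ?_)
      · have hdd := hT.base.sec_dim s
        have := h (T.sec s) hs (i + 1) (by omega) _ (hT.res_null s (i + 1) _ hX hs hc)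
        rw [map_sub, map_smul, hT.base.res_h, sub_eq_zero] at this
        exact this
      · have hdd := hT.base.sec_dim s
        exact ihB (T.sec s) (by omega) i (by omega)
    · intro X hd i hi
      obtain _ | i := i
      · exact hT.base.fund X (by omega)
      intro z
      obtain ⟨c, hc⟩ := res_const hT i (by omega) z (fun s hs => by
        have hdd := hT.base.sec_dim s
        by_cases h2 : 2 * (i + 1) + 2 ≤ m
        · exact ihB (T.sec s) (by omega) (i + 1) h2 _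
        · exact ihA (T.sec s) hs (by omega) (i + 1) (by omega) _)
      refine pencil_step hT (by omega) i z c hc (fun s => ?_)
      have hdd := hT.base.sec_dim s
      exact ihB (T.sec s) (by omega) i (by omega)

lemma hartshorne_all (hT : T.Facts) (h : ∀ X : T.Hyp, T.Smooth X → T.MiddleInjective X)
    (X : T.Hyp) (hX : T.Smooth X) (i : ℕ) (hi : 2 * i < T.dim X) : T.Hartshorne X i := by
  obtain ⟨a, b⟩ := hartshorne_of_middle hT h (T.dim X)
  by_cases h2 : 2 * i + 2 ≤ T.dim X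
  · exact b X rfl i h2
  · exact a X hX rfl i (by omega)

lemma null_retract (hT : T.Facts) {P M N : 𝓜} (R : Retract M N)
    (h : ∀ g : P ⟶ N, T.null g → g = 0) (f : P ⟶ M) (hf : T.null f) : f = 0 := by
  have : f = (f ≫ R.i) ≫ R.r := by rw [Category.assoc, R.retract, Category.comp_id]
  rw [this, h (f ≫ R.i) (hT.null_comp _ _ hf), Limits.zero_comp]

variable [MonoidalPreadditive 𝓜]

lemma null_untwist (hT : T.Facts) (i k : ℕ) (M : 𝓜)
    (h : ∀ g : pow T.L (i + k) ⟶ M ⊗ pow T.L k, T.null g → g = 0) (f : pow T.L i ⟶ M)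
    (hf : T.null f) : f = 0 := by
  apply faithful_pow hT.base.faithful k
  have h1 := h ((powAdd T.L i k).hom ≫ f ▷ pow T.L k) (hT.comp_null _ _ (hT.whisker _ _ hf))
  have h2 : f ▷ pow T.L k = 0 := by
    rw [← cancel_epi (powAdd T.L i k).hom, h1, Limits.comp_zero]
  rw [h2, MonoidalPreadditive.zero_whiskerRight]

/-- the middle cases from almost diagonal hypersurfaces -/
lemma of_cofinal (hT : T.Facts) (S : Set (ℕ × ℕ)) (hS : EvenCofinal S) (ω : ℕ → ℕ)
    (hω : Filter.Tendsto ω Filter.atTop Filter.atTop)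
    (h : ∀ X W : T.Hyp, T.Smooth X → Relation.ReflTransGen T.Susp X W →
      (T.dim W, T.deg W) ∈ S → T.dim X ≤ ω (T.dim W) → T.MiddleInjective W) (X : T.Hyp)
    (hX : T.Smooth X) : T.MiddleInjective X := by
  intro i hi
  obtain ⟨N₀, hN₀⟩ := Filter.eventually_atTop.1 (hω.eventually_ge_atTop (T.dim X))
  have hpos := hT.base.deg_pos X
  obtain ⟨⟨n, d⟩, hp, heven, hn, hdvd, hd⟩ := hS (max N₀ (T.dim X)) (2 * T.deg X) (by omega)
  simp only at heven hn hdvd hd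
  obtain ⟨e, he⟩ := hdvd
  have he0 : 0 < 2 * e := by
    rcases Nat.eq_zero_or_pos e with h0 | h0
    · rw [h0] at he; omega
    · omega
  obtain ⟨X', a1, a2, a3, ⟨R⟩⟩ := hT.base.cover X (2 * e) hX he0
  have hd2 : T.deg X' = d := by rw [a2, he]; ring
  have hd3 : 2 ≤ T.deg X' := by
    rw [a2]
    calc 2 ≤ 1 * (2 * e) := by omega
      _ ≤ _ := Nat.mul_le_mul_right _ hpos
  obtain ⟨k, hk⟩ : ∃ k, n = T.dim X + 2 * k := by
    obtain ⟨l, hl⟩ := heven
    have : T.dim X ≤ n := le_trans (le_max_right _ _) hn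
    exact ⟨l - i, by omega⟩
  obtain ⟨W, b1, b2⟩ := exists_susps hT.base a1 hd3 k
  obtain ⟨c1, c2, k', c3, ⟨R'⟩⟩ := susps hT.base a1 b1
  obtain rfl : k' = k := by omega
  have hW : T.MiddleInjective W := by
    refine h X' W a1 b1 ?_ ?_
    · rw [show T.dim W = n by omega, show T.deg W = d by rw [c2, hd2]]
      exact hp
    · rw [show T.dim W = n by omega, a3]
      exact hN₀ n (le_trans (le_max_left _ _) hn)
  rw [hT.link₀ X hX i hi]
  refine null_retract hT R (null_untwist hT i k' _ (null_retract hT R' ?_))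
  exact (hT.link₀ W c1 (i + k') (by omega)).1 (hW (i + k') (by omega))

variable [BraidedCategory 𝓜]

/-- products: vanishing below the middle, injectivity in the middle -/
lemma products (hT : T.Facts) (h : ∀ X : T.Hyp, T.Smooth X → T.MiddleInjective X)
    (h' : ∀ X : T.Hyp, T.Smooth X → ∀ i, 2 * i < T.dim X → T.Hartshorne X i) {N : ℕ} {M : 𝓜}
    (hM : T.IsProd N M) : (∀ i, 2 * i < N → ∀ f : pow T.L i ⟶ M, f = 0) ∧
      ∀ i, 2 * i = N → ∀ f : pow T.L i ⟶ M, T.null f → f = 0 := by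
  refine ⟨prod_of_all hT.base h' hM, fun i hi => ?_⟩
  obtain ⟨D, -, H⟩ := prod_retract hT.base hM
  obtain ⟨W, s, h1, -, h3, ⟨R⟩⟩ := H 1 one_pos
  refine null_untwist hT i s M (null_retract hT R ?_)
  exact (hT.link₀ W h1 (i + s) (by omega)).1 (h W h1 (i + s) (by omega))

/-- twisted products are dominated by hypersurfaces of all large dimensions -/
lemma retract_large (hT : T.Facts) {N : ℕ} {M : 𝓜} (hM : T.IsProd N M) :
    ∃ s₀ : ℕ, ∀ s, s₀ ≤ s → ∃ W : T.Hyp, T.Smooth W ∧ T.dim W = N + 2 * s ∧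
      Nonempty (Retract (M ⊗ pow T.L s) (T.prim W)) := by
  obtain ⟨D, hD, H⟩ := prod_retract hT.base hM
  obtain ⟨W, s₀, h1, h2, h3, ⟨R⟩⟩ := H 2 two_pos
  refine ⟨s₀, fun s hs => ?_⟩
  obtain ⟨t, rfl⟩ := Nat.exists_eq_add_of_le hs
  obtain ⟨W', a1, a2⟩ := exists_susps hT.base h1 (by rw [h2]; omega) t
  obtain ⟨b1, -, k, b3, ⟨R'⟩⟩ := susps hT.base h1 a1
  obtain rfl : k = t := by omega
  refine ⟨W', b1, by omega, ⟨?_⟩⟩
  have e : M ⊗ pow T.L (s₀ + k) ≅ (M ⊗ pow T.L s₀) ⊗ pow T.L k :=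
    (tensorLeft M).mapIso (powAdd T.L s₀ k) ≪≫ (α_ _ _ _).symm
  exact ((retIso e).trans (retRight R _)).trans R'

/-- homologically trivial morphisms between products of the same weight are zero -/
lemma morphisms (hT : T.Facts) (h : ∀ (N : ℕ) (M : 𝓜), T.IsProd N M → ∀ i, 2 * i = N →
    ∀ f : pow T.L i ⟶ M, T.null f → f = 0) {a b : ℕ} {M N : 𝓜} (hM : T.IsProd a M)
    (hN : T.IsProd b N) (k l : ℕ) (hkl : a + 2 * k = b + 2 * l)
    (f : M ⊗ pow T.L k ⟶ N ⊗ pow T.L l) (hf : T.null f) : f = 0 := by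
  obtain ⟨s₀, H₁⟩ := retract_large hT hM
  obtain ⟨t₀, H₂⟩ := retract_large hT hN
  obtain ⟨W, a1, a2, ⟨R⟩⟩ := H₁ (k + (s₀ + t₀)) (by omega)
  obtain ⟨V, b1, b2, ⟨Q⟩⟩ := H₂ (l + (s₀ + t₀)) (by omega)
  have e₁ : M ⊗ pow T.L (k + (s₀ + t₀)) ≅ (M ⊗ pow T.L k) ⊗ pow T.L (s₀ + t₀) :=
    (tensorLeft M).mapIso (powAdd T.L _ _) ≪≫ (α_ _ _ _).symm
  have e₂ : N ⊗ pow T.L (l + (s₀ + t₀)) ≅ (N ⊗ pow T.L l) ⊗ pow T.L (s₀ + t₀) :=
    (tensorLeft N).mapIso (powAdd T.L _ _) ≪≫ (α_ _ _ _).symm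
  have key : R.r ≫ e₁.hom ≫ f ▷ pow T.L (s₀ + t₀) ≫ e₂.inv ≫ Q.i = 0 := by
    refine hT.selfdual W (T.prim V) a1 ?_ _ ?_
    · exact h _ _ (.tensor (.one W a1) (.one V b1)) _ (by omega)
    · exact hT.comp_null _ _ (hT.comp_null _ _ (hT.null_comp _ _ (hT.whisker _ _ hf)))
  apply faithful_pow hT.base.faithful (s₀ + t₀)
  rw [MonoidalPreadditive.zero_whiskerRight]
  have e3 : f ▷ pow T.L (s₀ + t₀) = e₁.inv ≫ R.i ≫ (R.r ≫ e₁.hom ≫ f ▷ pow T.L (s₀ + t₀) ≫
      e₂.inv ≫ Q.i) ≫ Q.r ≫ e₂.hom := by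
    simp only [Category.assoc, R.retract_assoc, Q.retract_assoc, Iso.inv_hom_id_assoc,
      Iso.inv_hom_id, Category.comp_id]
  rw [e3, key]
  simp

/-- main theorem -/
theorem final (hT : T.Facts) (S : Set (ℕ × ℕ)) (hS : EvenCofinal S) (ω : ℕ → ℕ)
    (hω : Filter.Tendsto ω Filter.atTop Filter.atTop) :
    [∀ X W : T.Hyp, T.Smooth X → Relation.ReflTransGen T.Susp X W →
        (T.dim W, T.deg W) ∈ S → T.dim X ≤ ω (T.dim W) → T.MiddleInjective W,
      ∀ X : T.Hyp, T.Smooth X → T.MiddleInjective X ∧ ∀ i, 2 * i < T.dim X → T.Hartshorne X i,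
      ∀ (N : ℕ) (M : 𝓜), T.IsProd N M → (∀ i, 2 * i < N → ∀ f : pow T.L i ⟶ M, f = 0) ∧
        ∀ i, 2 * i = N → ∀ f : pow T.L i ⟶ M, T.null f → f = 0,
      ∀ (a b : ℕ) (M N : 𝓜), T.IsProd a M → T.IsProd b N → ∀ k l, a + 2 * k = b + 2 * l →
        ∀ f : M ⊗ pow T.L k ⟶ N ⊗ pow T.L l, T.null f → f = 0].TFAE := by
  tfae_have 1 → 2 := fun h X hX => by
    have h1 := of_cofinal hT S hS ω hω h
    exact ⟨h1 X hX, hartshorne_all hT h1 X hX⟩
  tfae_have 2 → 3 := fun h N M hM =>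
    products hT (fun X hX => (h X hX).1) (fun X hX => (h X hX).2) hM
  tfae_have 3 → 4 := fun h a b M N hM hN k l hkl f hf =>
    morphisms hT (fun N M hM => (h N M hM).2) hM hN k l hkl f hf
  tfae_have 4 → 1 := fun h X₀ X hX₀ hs _ _ i hi => by
    obtain ⟨hX, -⟩ := susps hT.base hX₀ hs
    refine (hT.link₀ X hX i hi).2 (fun f hf => ?_)
    obtain ⟨Y, y1, y2, ⟨R⟩⟩ := hT.points
    have key := h (T.dim Y) (T.dim X) _ _ (.one Y y1) (.one X hX) i 0 (by omega)
      (R.r ▷ pow T.L i ≫ (λ_ _).hom ≫ f ≫ (ρ_ _).inv)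
      (hT.comp_null _ _ (hT.comp_null _ _ (hT.null_comp _ _ hf)))
    have e : f = (λ_ _).inv ≫ R.i ▷ pow T.L i ≫
        (R.r ▷ pow T.L i ≫ (λ_ _).hom ≫ f ≫ (ρ_ _).inv) ≫ (ρ_ _).hom := by
      have e1 : R.i ▷ pow T.L i ≫ R.r ▷ pow T.L i = 𝟙 _ := by
        rw [← comp_whiskerRight, R.retract, id_whiskerRight]
      simp only [Category.assoc, Iso.inv_hom_id, Category.comp_id]
      rw [← Category.assoc (R.i ▷ _), e1, Category.id_comp, Iso.inv_hom_id_assoc]
    rw [e]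
    have key' : (R.r ▷ pow T.L i ≫ (λ_ (pow T.L i)).hom ≫ f ≫ (ρ_ (T.prim X)).inv) = 0 := key
    rw [key']
    simp
  tfae_finish

end NullData

end Pool.Agent.Q28.HJ
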