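import Pool.Agent.Q28.HJ.Defs

/-!
# Periods of hypersurfaces: definitions
-/

open CategoryTheory MonoidalCategory

universe v u w

namespace Pool.Agent.Q28.HJ

variable {𝓜 : Type u} [Category.{v} 𝓜] [Preadditive 𝓜] [MonoidalCategory 𝓜]
  [Limits.HasBinaryBiproducts 𝓜]

/-- The object `N` is obtained from `M` by tensor products, direct sums, direct summands, and by
passing from `N ⊗ L^c` and `L^c` to `N`. So `N` belongs to the Tannakian subcategory `⟨M⟩` generated
by `M`. -/
inductive Below (L M : 𝓜) : 𝓜 → Prop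
  | self : Below L M M
  | unit : Below L M (𝟙_ 𝓜)
  | tensor {A B : 𝓜} (hA : Below L M A) (hB : Below L M B) : Below L M (A ⊗ B)
  | sum {A B : 𝓜} (hA : Below L M A) (hB : Below L M B) : Below L M (A ⊞ B)
  | summand {A B : 𝓜} (hA : Below L M A) (R : Nonempty (Retract B A)) : Below L M B
  | untwist {A : 𝓜} (c : ℕ) (hL : Below L M (pow L c)) (hA : Below L M (A ⊗ pow L c)) :
      Below L M A

/-- `A = N_1 ⊗ N_1 ⊞ ⋯ ⊞ N_r ⊗ N_r` and `B = N_1 ⊞ ⋯ ⊞ N_r`. -/
inductive Squares : 𝓜 → 𝓜 → Prop
  | one (N : 𝓜) : Squares (N ⊗ N) N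
  | add {A B A' B' : 𝓜} (h : Squares A B) (h' : Squares A' B') : Squares (A ⊞ A') (B ⊞ B')

/-- The data `HypData` for the hypersurfaces over the field of algebraic numbers (`𝓜` is the category
of homological motives generated by them, a semisimple Tannakian category since the standard
conjectures hold for products of hypersurfaces), together with the numerical invariants in the
period conjecture. -/
structure PeriodData (𝓜 : Type u) [Category.{v} 𝓜] extends HypData.{v, u, w} 𝓜 where
  /-- the transcendence degree of the field of periods of `M`, the dimension of the Zariski closure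
  of the period point -/
  trdeg : 𝓜 → ℕ
  /-- the dimension of the torsor of motivic periods of `M`, that is, of its motivic Galois group -/
  gdim : 𝓜 → ℕ

namespace PeriodData

/-- `M_{X_1} ⊞ (M_{X_2} ⊞ ⋯ ⊞ L)`; it generates the same tensor category as the motives of all
products of powers of the hypersurfaces `X_1, …, X_r`. -/
noncomputable def total (T : PeriodData.{v, u, w} 𝓜) : List T.Hyp → 𝓜
  | [] => T.L
  | X :: l => T.prim X ⊞ T.total l

variable (T : PeriodData.{v, u, w} 𝓜)

/-- The period conjecture (equality of dimensions) for `M`. -/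
def PC (M : 𝓜) : Prop := T.trdeg M = T.gdim M

/-- Known facts.
* `join`, `susp`, `susp_prop`, `cover`, `deg_pos`: as in `HypData.Facts` (Shioda, Katsura).
* `curve`: there are smooth plane curves of all degrees.
* `poincare`: for `X` of degree at least three and dimension `n` the primitive cohomology is not zero
  and Poincare duality makes `L^n` a direct summand of `M_X ⊗ M_X`.
* `le`: the period point lies on the torsor of motivic periods. `fibre`: for `N` in `⟨M⟩` the torsor
  of `M` is fibred over the torsor of `N`, with fibres of dimension `gdim M - gdim N`.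
* `isogeny`: the periods of `N_1, …, N_r` are algebraic over the field of periods of the
  `N_j ⊗ N_j`, and the motivic Galois group of `⊞ N_j` is a finite covering of that of
  `⊞ N_j ⊗ N_j`. -/
structure Facts : Prop where
  join : ∀ X Y : T.Hyp, T.Smooth X → T.Smooth Y → T.deg X = T.deg Y → ∃ W, T.Smooth W ∧
    T.deg W = T.deg X ∧ T.dim W = T.dim X + T.dim Y + 2 ∧
      Nonempty (Retract ((T.prim X ⊗ T.prim Y) ⊗ T.L) (T.prim W))
  susp : ∀ X : T.Hyp, T.Smooth X → 2 ≤ T.deg X → ∃ W, T.Susp X W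
  susp_prop : ∀ X W : T.Hyp, T.Susp X W → T.Smooth W ∧ T.deg W = T.deg X ∧
    T.dim W = T.dim X + 2 ∧ Nonempty (Retract (T.prim X ⊗ T.L) (T.prim W))
  cover : ∀ (X : T.Hyp) (e : ℕ), T.Smooth X → 0 < e → ∃ X', T.Smooth X' ∧
    T.deg X' = T.deg X * e ∧ T.dim X' = T.dim X ∧ Nonempty (Retract (T.prim X) (T.prim X'))
  deg_pos : ∀ X : T.Hyp, 0 < T.deg X
  curve : ∀ d, 0 < d → ∃ C : T.Hyp, T.Smooth C ∧ T.dim C = 1 ∧ T.deg C = d
  poincare : ∀ X : T.Hyp, T.Smooth X → 3 ≤ T.deg X →
    Nonempty (Retract (pow T.L (T.dim X)) (T.prim X ⊗ T.prim X))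
  le : ∀ M : 𝓜, T.trdeg M ≤ T.gdim M
  fibre : ∀ M N : 𝓜, Below T.L M N → T.gdim N + T.trdeg M ≤ T.gdim M + T.trdeg N
  isogeny : ∀ A B : 𝓜, Squares A B → T.trdeg A = T.trdeg B ∧ T.gdim A = T.gdim B

end PeriodData

/-- The set `S` of pairs `(n, d)` contains, for all `N, D ≥ 1`, a pair `(n, d)` with `n ≥ N` and
`d ≥ 1` divisible by `D`. -/
def AnyCofinal (S : Set (ℕ × ℕ)) : Prop :=
  ∀ N D : ℕ, 0 < D → ∃ p ∈ S, N ≤ p.1 ∧ D ∣ p.2 ∧ 0 < p.2

end Pool.Agent.Q28.HJ
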