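import Pool.Agent.Q28.HJ.GDefs

/-!
# De Rham-Betti classes on sums of ternary cubic forms: definitions
-/

open CategoryTheory MonoidalCategory

universe v u w v' u'

namespace Pool.Agent.Q28.HJ

/-- The category `𝓜` of homological motives over the field of algebraic numbers, with the
hypersurfaces, the functor to the category `𝓓` of de Rham-Betti objects, and elliptic curves. -/
structure DRBData (𝓜 : Type u) [Category.{v} 𝓜] (𝓓 : Type u') [Category.{v'} 𝓓]
    extends JoinData.{v, u, w} 𝓜 where
  /-- the de Rham-Betti realization -/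
  R : 𝓜 ⥤ 𝓓
  /-- `M = h^1(E)` for an elliptic curve `E` -/
  Ell : 𝓜 → Prop
  /-- the motive of a smooth hypersurface -/
  mot : Hyp → 𝓜

namespace DRBData

variable {𝓜 : Type u} [Category.{v} 𝓜] [Preadditive 𝓜] [MonoidalCategory 𝓜]
  {𝓓 : Type u'} [Category.{v'} 𝓓] (T : DRBData.{v, u, w, v', u'} 𝓜 𝓓)

/-- All de Rham-Betti classes of degree `2k` and twist `k` in the cohomology of `M`, that is, all
morphisms from the realization of `L^k` to the one of `M`, are classes of algebraic cycles (morphisms
from `L^k` to `M`). For `M` the motive of a smooth projective variety `X` this is `GPC^k(X)` for all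
`k`. -/
def GPC (M : 𝓜) : Prop :=
  ∀ (k : ℕ) (φ : T.R.obj (pow T.L k) ⟶ T.R.obj M), ∃ f : pow T.L k ⟶ M, T.R.map f = φ

/-- Known facts: `core`: sums of forms (Shioda, Katsura); `elliptic`: plane cubic curves, cubic
surfaces, quartic curves `f(x, y) = u ^ 4`; `mot`: the motive of a hypersurface is a direct sum of
`M_X` and of powers of `L`; `ksv`: for all motives generated by elliptic curves de Rham-Betti classes
are algebraic (Kreutz, Shen, Vial). -/
structure Facts : Prop where
  core : T.CoreFacts
  elliptic : T.EllipticFacts T.Ell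
  mot : ∀ X : T.Hyp, T.Smooth X → GenBy T.L (fun N => N = T.prim X) (T.mot X)
  ksv : ∀ M : 𝓜, GenBy T.L T.Ell M → T.GPC M

end DRBData

end Pool.Agent.Q28.HJ
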